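import Pool.Agent.Lib.H5C.ERD
import Pool.Agent.Lib.H5C.PAR
import Pool.Agent.Lib.H77V.Defs

/-!
# H77W: definitions (see `PROOF.md`)
-/

open Finset Real
open Pool.Agent.Lib.H5C
open Pool.Agent.Lib.H77V

namespace Pool.Agent.Lib.H77W

noncomputable section

/-- The survivors in `[1, H]` for the residue class `a` modulo `M`. -/
def SH (H M a : ℕ) : Finset ℕ := (Icc 1 H).filter (fun h => Nat.Coprime (a + h) M)

theorem SE_eq (κ : ℝ) (y M a : ℕ) : SE κ y M a = SH (hE κ y) M a := rfl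

/-- The exceptional part: multiples of elements of `D`, and powers of `p1`. -/
def R2 (H p1 : ℕ) (D : Finset ℕ) : Finset ℕ :=
  (Icc 1 H).filter (fun h => ∃ d ∈ D, d ∣ h) ∪ (Icc 1 H).filter (fun h => ∃ b ≤ h, h = p1 ^ b)

open Classical in
/-- For one `X`: sieving limit `y`, window `[1, H]`; many vectors, each for many `t ≤ T`. -/
def Concl (k : ℕ) (ε c : ℝ) (X y H : ℕ) : Prop :=
  ∃ (D : Finset ℕ) (p1 a T : ℕ), OKD y D p1 ∧ y < a ∧ (a : ℝ) ≤ X ∧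
    MM y D p1 * T ≤ 61 * X ∧ H < MM y D p1 ∧
    ∃ V : Finset (Fin k → ℕ), V ⊆ box k H ∧ c * (H : ℝ) ^ k ≤ (V.card : ℝ) ∧
      ∀ v ∈ V, (X : ℝ) ^ (1 - ε) ≤ (((Icc 1 T).filter (fun t =>
        GK (SH H (MM y D p1) a) a (MM y D p1) v t)).card : ℝ)

theorem Concl.mono {k : ℕ} {ε c c' : ℝ} {X y H : ℕ} (h : Concl k ε c X y H) (hc : c' ≤ c) :
    Concl k ε c' X y H := by
  obtain ⟨D, p1, a, T, h1, h2, h3, h4, h5, V, h6, h7, h8⟩ := h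
  refine ⟨D, p1, a, T, h1, h2, h3, h4, h5, V, h6, le_trans ?_ h7, h8⟩
  exact mul_le_mul_of_nonneg_right hc (by positivity)

open Classical in
/-- The general statement for one `X` (proved in `G1.lean`). -/
def GG (k : ℕ) (ε δ c0 : ℝ) : Prop :=
  ∀ c1 C1 : ℝ, 0 < c1 → 0 < C1 → ∃ C2 c : ℝ, 0 < C2 ∧ 0 < c ∧
    ∃ X₀ : ℕ, ∀ X : ℕ, X₀ ≤ X → ∀ y : ℕ, y ≤ ⌊δ * log X⌋₊ → log (log X) / 2 ≤ log y →
    ∃ (D : Finset ℕ) (p1 : ℕ), OKD y D p1 ∧ ∀ (H a₀ : ℕ) (s : ℝ), 1 ≤ H → H ≤ WX X →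
      C2 * (log X / log (log X)) ≤ s → C1 * s ≤ c0 * log X →
      c1 * s ≤ ((SH H (MM y D p1) a₀).card : ℝ) →
      ((SH H (MM y D p1) a₀).card : ℝ) ≤ C1 * s →
      (((SH H (MM y D p1) a₀).card : ℝ) ^ (k + 1) +
        2 * eK (k + 1) (SH H (MM y D p1) a₀) H) * (H : ℝ) ^ k ≤ C1 * s ^ (2 * (k + 1)) →
      ∃ a T : ℕ, y < a ∧ (a : ℝ) ≤ X ∧ MM y D p1 * T ≤ 61 * X ∧
        ∃ V : Finset (Fin k → ℕ), V ⊆ box k H ∧ c * (H : ℝ) ^ k ≤ (V.card : ℝ) ∧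
          ∀ v ∈ V, (X : ℝ) ^ (1 - ε) ≤ (((Icc 1 T).filter (fun t =>
            GK (SH H (MM y D p1) a) a (MM y D p1) v t)).card : ℝ)

end

end Pool.Agent.Lib.H77W
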