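import Pool.Agent.Lib.H5C.ER3a

/-!
# Chunk F1: `hE κ (y + 1) ≤ 4 hE κ y`
-/

open Finset Real
open Pool.Agent.Lib.H5C

namespace Pool.Agent.Lib.H77W

/-- `E(y) = y (log y)² logloglog y/(loglog y)²` satisfies `E(y + 1) ≤ 2 E(y)` for large `y`
(`log (y + 1) ≤ 1.1 log y`, `logloglog (y + 1) ≤ 1.1 logloglog y` as `log` is concave,
`loglog (y + 1) ≥ loglog y`, `y + 1 ≤ 1.1 y`; `1.1^4 < 2`), and `κ E(y) ≤ 2 hE κ y`,
`hE κ (y + 1) ≤ κ E(y + 1)` (`er_sizes`). -/
theorem hE_double (κ : ℝ) (hκ : 0 < κ) (hκ1 : κ ≤ 1) : ∃ y₀ : ℕ, ∀ y : ℕ, y₀ ≤ y →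
    hE κ (y + 1) ≤ 4 * hE κ y := by
  obtain ⟨y₀, h⟩ := er_sizes κ hκ hκ1
  refine ⟨max y₀ 10, fun y hy => ?_⟩
  have hy1 : y₀ ≤ y := (le_max_left _ _).trans hy
  have hy2 : 10 ≤ y := (le_max_right _ _).trans hy
  obtain ⟨a1, a2, a3, -, -, -, -, -, -, -, a4, -⟩ := h y hy1
  obtain ⟨-, -, -, -, -, -, -, -, -, -, -, b5, -⟩ := h (y + 1) (by omega)
  have hyr : (10 : ℝ) ≤ y := by exact_mod_cast hy2
  have hy0 : (0 : ℝ) < y := by linarith
  rw [Nat.cast_add, Nat.cast_one] at b5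
  generalize hX : log (y : ℝ) = X at *
  generalize hX' : log ((y : ℝ) + 1) = X' at *
  have c1 : X ≤ X' := by
    rw [← hX, ← hX']
    exact Real.log_le_log hy0 (by linarith)
  have c2 : X' ≤ 1.1 * X := by
    have e : (y : ℝ) + 1 = y * (1 + 1 / y) := by
      field_simp
    have h1 : X' = X + log (1 + 1 / (y : ℝ)) := by
      rw [← hX, ← hX', e, Real.log_mul (by positivity) (by positivity)]
    have h2 : log (1 + 1 / (y : ℝ)) ≤ 1 := by
      have h3 := Real.log_le_sub_one_of_pos (show (0 : ℝ) < 1 + 1 / (y : ℝ) by positivity)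
      have h4 : 1 / (y : ℝ) ≤ 1 := by
        rw [div_le_one hy0]
        linarith
      linarith
    linarith
  have hX0 : 0 < X := by linarith
  have hX'0 : 0 < X' := by linarith
  generalize hX2 : log X = X2 at *
  generalize hX2' : log X' = X2' at *
  have hl : log (1.1 : ℝ) ≤ 0.1 := by
    have h3 := Real.log_le_sub_one_of_pos (show (0 : ℝ) < 1.1 by norm_num)
    linarith
  have c3 : X2 ≤ X2' := by
    rw [← hX2, ← hX2']
    exact Real.log_le_log hX0 c1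
  have c4 : X2' ≤ 1.1 * X2 := by
    have h1 : X2' ≤ log (1.1 * X) := by
      rw [← hX2']
      exact Real.log_le_log hX'0 c2
    rw [Real.log_mul (by norm_num) hX0.ne', hX2] at h1
    linarith
  have hX20 : 0 < X2 := by linarith
  have hX2'0 : 0 < X2' := by linarith
  generalize hX3 : log X2 = X3 at *
  generalize hX3' : log X2' = X3' at *
  have c5 : X3' ≤ 1.1 * X3 := by
    have h1 : X3' ≤ log (1.1 * X2) := by
      rw [← hX3']
      exact Real.log_le_log hX2'0 c4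
    rw [Real.log_mul (by norm_num) hX20.ne', hX3] at h1
    linarith
  have c6 : 0 ≤ X3' := by
    rw [← hX3']
    exact Real.log_nonneg (by linarith)
  have hEE : ((y : ℝ) + 1) * X' ^ 2 * X3' / X2' ^ 2 ≤ 2 * (y * X ^ 2 * X3 / X2 ^ 2) := by
    calc ((y : ℝ) + 1) * X' ^ 2 * X3' / X2' ^ 2 ≤ ((y : ℝ) + 1) * X' ^ 2 * X3' / X2 ^ 2 := by
          gcongr
      _ ≤ (1.1 * y) * (1.1 * X) ^ 2 * (1.1 * X3) / X2 ^ 2 := by
          have h1 : (y : ℝ) + 1 ≤ 1.1 * y := by linarith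
          gcongr
      _ = 1.4641 * (y * X ^ 2 * X3 / X2 ^ 2) := by ring
      _ ≤ 2 * (y * X ^ 2 * X3 / X2 ^ 2) := by
          have h2 : 0 ≤ y * X ^ 2 * X3 / X2 ^ 2 := by
            have : 0 ≤ X3 := by linarith
            positivity
          linarith
  have hfin : ((hE κ (y + 1) : ℕ) : ℝ) ≤ ((4 * hE κ y : ℕ) : ℝ) := by
    push_cast
    have h3 := mul_le_mul_of_nonneg_left hEE hκ.le
    linarith
  exact_mod_cast hfin

end Pool.Agent.Lib.H77W
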