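import Pool.Agent.Lib.H5C.FB1
import Pool.Agent.Lib.H5C.FC1
import Pool.Agent.Lib.H77W.F1

/-!
# Chunk F2: the sieving limit for a given window
-/

open Finset Real
open Pool.Agent.Lib.H5C
open Pool.Agent.Lib.H56G

namespace Pool.Agent.Lib.H77W

private theorem f2_inner (A L l Y lY y ly g B δ : ℝ) (hA : 0 < A) (hδ : 0 < δ)
    (hL : 0 < L) (hl : 0 < l) (hY : δ / 2 * L ≤ Y) (hlY0 : 0 < lY) (hlY : lY ≤ l)
    (hy0 : 0 ≤ y) (hly0 : 0 ≤ ly) (hly : ly ≤ lY) (hB : B = 8 * A / δ) (hg : g * B ≤ 1)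
    (hYy : Y * lY ≤ 4 * (y * ly ^ 2 * g)) : A * (L / l) ≤ y := by
  have hB0 : 0 < B := by rw [hB]; positivity
  have h1 : Y * lY * B ≤ 4 * (y * lY ^ 2) := by
    calc Y * lY * B ≤ 4 * (y * ly ^ 2 * g) * B := mul_le_mul_of_nonneg_right hYy hB0.le
      _ = 4 * (y * ly ^ 2) * (g * B) := by ring
      _ ≤ 4 * (y * ly ^ 2) * 1 := by gcongr
      _ = 4 * (y * ly ^ 2) := by ring
      _ ≤ 4 * (y * lY ^ 2) := by gcongr
  have h2 : Y * B ≤ 4 * y * lY := by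
    have h3 : (Y * B) * lY ≤ (4 * y * lY) * lY := by
      calc (Y * B) * lY = Y * lY * B := by ring
        _ ≤ 4 * (y * lY ^ 2) := h1
        _ = (4 * y * lY) * lY := by ring
    exact le_of_mul_le_mul_right h3 hlY0
  have h3 : 4 * A * L ≤ 4 * y * l := by
    calc 4 * A * L = (δ / 2 * L) * B := by rw [hB]; field_simp; ring
      _ ≤ Y * B := mul_le_mul_of_nonneg_right hY hB0.le
      _ ≤ 4 * y * lY := h2
      _ ≤ 4 * y * l := by gcongr
  rw [← mul_div_assoc, div_le_iff₀ hl]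
  linarith

private theorem f2_hE0 (κ : ℝ) : hE κ 0 = 0 := by
  unfold hE
  simp

private theorem f2_evy (κ B : ℝ) (hκ : 0 < κ) (hκ1 : κ ≤ 1) : ∃ z₀ : ℕ, ∀ y : ℕ, z₀ ≤ y →
    hE κ (y + 1) ≤ 4 * hE κ y ∧ 0 ≤ log (y : ℝ) ∧
    ∃ g : ℝ, g * B ≤ 1 ∧ (hE κ y : ℝ) ≤ κ * (y * (log y) ^ 2 * g) := by
  obtain ⟨y1, h1⟩ := hE_double κ hκ hκ1
  obtain ⟨y2, h2⟩ := er_sizes κ hκ hκ1
  have t1 : Filter.Tendsto (fun y : ℕ => log (y : ℝ)) Filter.atTop Filter.atTop :=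
    Real.tendsto_log_atTop.comp tendsto_natCast_atTop_atTop
  have t2 := Real.tendsto_log_atTop.comp t1
  have e1 : ∀ᶠ v : ℝ in Filter.atTop, log v ≤ v ^ 1 := by
    filter_upwards [Filter.eventually_gt_atTop 0] with v hv
    have := Real.log_le_sub_one_of_pos hv
    linarith
  obtain ⟨y3, h3⟩ := Filter.eventually_atTop.1
    ((t2.eventually e1).and (t2.eventually_ge_atTop (max B 1)))
  refine ⟨y1 + y2 + y3, fun y hy => ?_⟩
  obtain ⟨s1, s2, s3, s4, s5, s6, s7, s8, s9, s10, s11, s12, -⟩ := h2 y (by omega)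
  obtain ⟨u1, u2⟩ := h3 y (by omega)
  simp only [Function.comp_apply] at u1 u2
  have u3 : B ≤ log (log (y : ℝ)) := (le_max_left _ _).trans u2
  have u4 : 1 ≤ log (log (y : ℝ)) := (le_max_right _ _).trans u2
  refine ⟨h1 y (by omega), by linarith, log (log (log y)) / (log (log y)) ^ 2, ?_, ?_⟩
  · rw [div_mul_eq_mul_div, div_le_one (by positivity)]
    have h4 : 0 ≤ log (log (log (y : ℝ))) := by linarith
    calc log (log (log (y : ℝ))) * B ≤ log (log (log (y : ℝ))) * log (log (y : ℝ)) :=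
          mul_le_mul_of_nonneg_left u3 h4
      _ ≤ (log (log (y : ℝ)) ^ 1) * log (log (y : ℝ)) :=
          mul_le_mul_of_nonneg_right u1 (by linarith)
      _ = log (log (y : ℝ)) ^ 2 := by ring
  · refine s12.trans (le_of_eq ?_)
    ring

private theorem f2_evX (κ δ A : ℝ) (hκ : 0 < κ) (hδ : 0 < δ) (hδ1 : δ ≤ 1 / 100) (hA : 0 < A)
    (Hm : ℕ) : ∃ X₀ : ℕ, ∀ X : ℕ, X₀ ≤ X →
    0 < log (X : ℝ) ∧ 0 < log (log (X : ℝ)) ∧ 0 < log (⌊δ * log X⌋₊ : ℝ) ∧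
    (0 : ℝ) < ⌊δ * log X⌋₊ ∧
    δ / 2 * log X ≤ (⌊δ * log X⌋₊ : ℝ) ∧ log (log X) / 2 ≤ log (⌊δ * log X⌋₊ : ℝ) ∧
    log (⌊δ * log X⌋₊ : ℝ) ≤ log (log X) ∧ A * (log X / log (log X)) ≤ δ / 2 * log X ∧
    log (log X) / 2 ≤ log (A * (log X / log (log X))) ∧
    0 < A * (log X / log (log X)) ∧
    (Hm : ℝ) ≤ κ * ((⌊δ * log X⌋₊ : ℝ) * log (⌊δ * log X⌋₊ : ℝ)) := by
  obtain ⟨X1, h1⟩ := fc_num 1 δ le_rfl hδ hδ1 (by linarith)
  have t0 : Filter.Tendsto (fun X : ℕ => (X : ℝ)) Filter.atTop Filter.atTop :=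
    tendsto_natCast_atTop_atTop
  have t1 := Real.tendsto_log_atTop.comp t0
  have t2 := Real.tendsto_log_atTop.comp t1
  have e1 : ∀ᶠ v : ℝ in Filter.atTop, log v ≤ v / 4 := by
    have := Real.isLittleO_log_id_atTop.bound (show (0 : ℝ) < 1 / 4 by norm_num)
    filter_upwards [this, Filter.eventually_ge_atTop 1] with v hv hv1
    rw [Real.norm_eq_abs, Real.norm_eq_abs, abs_of_nonneg (Real.log_nonneg hv1), id,
      abs_of_nonneg (by linarith)] at hv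
    linarith
  obtain ⟨X2, h2⟩ := Filter.eventually_atTop.1 ((t2.eventually e1).and
    ((t2.eventually_ge_atTop (max (2 * A / δ) (max (4 * |log A|) 2))).and
      (t1.eventually_ge_atTop (max 1 (2 * Hm / (κ * δ))))))
  refine ⟨X1 + X2, fun X hX => ?_⟩
  obtain ⟨-, -, -, -, -, -, -, n8, n9, n10, -⟩ := h1 X (by omega)
  obtain ⟨u1, u2, u3⟩ := h2 X (by omega)
  simp only [Function.comp_apply] at u1 u2 u3
  have hl1 : 2 * A / δ ≤ log (log (X : ℝ)) := (le_max_left _ _).trans u2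
  have hl2 : 4 * |log A| ≤ log (log (X : ℝ)) :=
    (le_max_left _ _).trans ((le_max_right _ _).trans u2)
  have hl3 : 2 ≤ log (log (X : ℝ)) := (le_max_right _ _).trans ((le_max_right _ _).trans u2)
  have hL1 : 1 ≤ log (X : ℝ) := (le_max_left _ _).trans u3
  have hL2 : 2 * Hm / (κ * δ) ≤ log (X : ℝ) := (le_max_right _ _).trans u3
  have hL0 : 0 < log (X : ℝ) := by linarith
  have hl0 : 0 < log (log (X : ℝ)) := by linarith
  have hY0 : (0 : ℝ) < ⌊δ * log X⌋₊ := lt_of_lt_of_le (by positivity) n8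
  have hlY0 : 1 ≤ log (⌊δ * log X⌋₊ : ℝ) := by linarith
  refine ⟨hL0, hl0, by linarith, hY0, n8, n9, n10, ?_, ?_, by positivity, ?_⟩
  · rw [← mul_div_assoc, div_le_iff₀ hl0]
    rw [div_le_iff₀ hδ] at hl1
    calc A * log (X : ℝ) = (2 * A) * (log X / 2) := by ring
      _ ≤ (log (log (X : ℝ)) * δ) * (log X / 2) := by gcongr
      _ = δ / 2 * log X * log (log X) := by ring
  · rw [Real.log_mul hA.ne' (by positivity), Real.log_div hL0.ne' hl0.ne']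
    have h5 := neg_abs_le (log A)
    linarith
  · have h6 : (Hm : ℝ) ≤ κ * ⌊δ * log X⌋₊ := by
      rw [div_le_iff₀ (by positivity)] at hL2
      have h7 := mul_le_mul_of_nonneg_left n8 hκ.le
      nlinarith
    calc (Hm : ℝ) ≤ κ * ⌊δ * log X⌋₊ := h6
      _ = κ * (⌊δ * log X⌋₊ * 1) := by ring
      _ ≤ κ * (⌊δ * log X⌋₊ * log (⌊δ * log X⌋₊ : ℝ)) := by gcongr

/-- Put `Y = ⌊δ log X⌋` and let `y` be the largest number `≤ Y` with `hE κ y ≤ H`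
(`Nat.findGreatest`; `hE κ 0 = 0`). If `y = Y`: `hE κ y ≥ c ff x ≥ c H` (`ff_le_hE`),
`y ≥ δ log X/2`. If `y < Y`: `H < hE κ (y + 1)`, so `y ≥ y₀` (as `H` is large), `H ≤ 4 hE κ y`
(`hE_double`), and from `hE κ y ≤ κ y (log y)² logloglog y/(loglog y)²`, `H ≥ κ Y log Y`, `log y ≤ log Y`:
`y ≥ Y/(4 log Y) · (loglog y)²/logloglog y`; first `y ≥ Y/(4 log Y)` is large, so
`(loglog y)²/logloglog y` is `≥ 8 A/δ`, and `y ≥ A log X/loglog X` (`Y ≥ δ log X/2`,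
`log Y ≤ loglog X`). At the end `log y ≥ loglog X/2` from `y ≥ A log X/loglog X`. -/
theorem choose_y (κ δ A : ℝ) (hκ : 0 < κ) (hκ1 : κ ≤ 1) (hδ : 0 < δ) (hδ1 : δ ≤ 1 / 100)
    (hA : 0 < A) : ∃ c : ℝ, 0 < c ∧ ∃ X₀ : ℕ, ∀ X : ℕ, X₀ ≤ X → ∀ x : ℝ, (X : ℝ) ≤ x →
    x ≤ 100 * X + 100 → ∀ H : ℝ, κ * ((⌊δ * log X⌋₊ : ℝ) * log (⌊δ * log X⌋₊ : ℝ)) ≤ H →
    H ≤ ff x → ∃ y : ℕ, y ≤ ⌊δ * log X⌋₊ ∧ log (log X) / 2 ≤ log y ∧
      A * (log X / log (log X)) ≤ y ∧ (hE κ y : ℝ) ≤ H ∧ c * H ≤ hE κ y := by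
  classical
  obtain ⟨c1, hc1, X1, h1⟩ := ff_le_hE κ δ hκ hδ (by linarith)
  obtain ⟨z₀, hz⟩ := f2_evy κ (8 * A / δ) hκ hκ1
  obtain ⟨X2, h2⟩ := f2_evX κ δ A hκ hδ hδ1 hA ((Finset.range (z₀ + 1)).sup (fun z => hE κ z))
  refine ⟨min c1 (1 / 4), lt_min hc1 (by norm_num), X1 + X2, fun X hX x hx1 hx2 H hH1 hH2 => ?_⟩
  obtain ⟨m1, m2, m3, m4, m5, m6, m7, m8, m9, m10, m11⟩ := h2 X (by omega)
  have hffE := h1 X (by omega) x hx1 hx2
  set Y := ⌊δ * log (X : ℝ)⌋₊ with hY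
  have hH0 : 0 ≤ H := le_trans (by positivity) hH1
  set y := Nat.findGreatest (fun z => (hE κ z : ℝ) ≤ H) Y with hy
  have hyY : y ≤ Y := Nat.findGreatest_le Y
  have hyH : (hE κ y : ℝ) ≤ H := by
    have h3 : (fun z => (hE κ z : ℝ) ≤ H) 0 := by
      simp only [f2_hE0, Nat.cast_zero]
      exact hH0
    exact Nat.findGreatest_spec (P := fun z => (hE κ z : ℝ) ≤ H) (Nat.zero_le Y) h3
  rcases Nat.lt_or_ge y Y with hlt | hge
  · have h3 : H < hE κ (y + 1) := by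
      have h4 := Nat.findGreatest_is_greatest (P := fun z => (hE κ z : ℝ) ≤ H) (n := Y)
        (k := y + 1) (by rw [← hy]; omega) (by omega)
      exact not_le.1 h4
    have hyz : z₀ ≤ y := by
      by_contra hcon
      have h4 : y + 1 ∈ Finset.range (z₀ + 1) := by
        rw [Finset.mem_range]
        omega
      have h5 := Finset.le_sup (f := fun z => hE κ z) h4
      have h6 : (hE κ (y + 1) : ℝ) ≤
          ((Finset.range (z₀ + 1)).sup (fun z => hE κ z) : ℕ) := by exact_mod_cast h5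
      linarith
    obtain ⟨q1, q2, g, q3, q4⟩ := hz y hyz
    have q1' : (hE κ (y + 1) : ℝ) ≤ 4 * hE κ y := by exact_mod_cast q1
    have hy0 : (0 : ℝ) ≤ y := Nat.cast_nonneg y
    have hlyY : log (y : ℝ) ≤ log (Y : ℝ) := by
      rcases Nat.eq_zero_or_pos y with h0 | h0
      · rw [h0, Nat.cast_zero, Real.log_zero]
        exact m3.le
      · exact Real.log_le_log (by exact_mod_cast h0) (by exact_mod_cast hyY)
    have hAy : A * (log X / log (log X)) ≤ y := by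
      refine f2_inner A (log X) (log (log X)) Y (log Y) y (log y) g (8 * A / δ) δ hA hδ m1 m2 m5
        m3 m7 hy0 q2 hlyY rfl q3 ?_
      have h5 : κ * ((Y : ℝ) * log (Y : ℝ)) ≤ κ * (4 * (y * (log y) ^ 2 * g)) := by
        calc κ * ((Y : ℝ) * log (Y : ℝ)) ≤ H := hH1
          _ ≤ hE κ (y + 1) := h3.le
          _ ≤ 4 * hE κ y := q1'
          _ ≤ 4 * (κ * (y * (log y) ^ 2 * g)) := by linarith
          _ = _ := by ring
      exact le_of_mul_le_mul_left h5 hκ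
    refine ⟨y, hyY, ?_, hAy, hyH, ?_⟩
    · exact m9.trans (Real.log_le_log m10 hAy)
    · calc min c1 (1 / 4) * H ≤ 1 / 4 * H := mul_le_mul_of_nonneg_right (min_le_right _ _) hH0
        _ ≤ hE κ y := by linarith
  · have hyY' : y = Y := le_antisymm hyY hge
    refine ⟨Y, le_rfl, m6, m8.trans m5, hyY' ▸ hyH, ?_⟩
    calc min c1 (1 / 4) * H ≤ c1 * H := mul_le_mul_of_nonneg_right (min_le_left _ _) hH0
      _ ≤ c1 * ff x := mul_le_mul_of_nonneg_left hH2 hc1.le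
      _ ≤ hE κ Y := hffE

end Pool.Agent.Lib.H77W
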