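import Pool.Agent.Lib.H77V.A8
import Pool.Agent.Lib.H77W.Defs

/-!
# Chunk G2: from `t` to the `n`-th prime
-/

open Finset Real
open Pool.Agent.Lib.H5C
open Pool.Agent.Lib.H77V

namespace Pool.Agent.Lib.H77W

/-- As `H77V.a7_one` (`H77V/A7.lean`, copy its proof), `H` in place of `hE κ y`. -/
theorem g2_one (k : ℕ) (H y M a : ℕ) (v : Fin k → ℕ) (hya : y < a) (hv : ∀ i, 1 ≤ v i)
    (hM : ∀ p : ℕ, p.Prime → p ∣ M → p ≤ y) (t : ℕ) (ht : GK (SH H M a) a M v t) :
    ∃ n : ℕ, a + M * t < Nat.nth Nat.Prime n ∧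
      Nat.nth Nat.Prime (n + k) ≤ a + M * t + H ∧
      ∀ i : Fin k, Nat.nth Nat.Prime (n + i + 1) = Nat.nth Nat.Prime (n + i) + v i := by
  classical
  have hinf : (Set.ofPred Nat.Prime).Infinite := Nat.infinite_setOfPred_prime
  have hmono := Nat.nth_strictMono hinf
  obtain ⟨x, hx, hno⟩ := ht
  have hSE : ∀ z ∈ SH H M a, 1 ≤ z ∧ z ≤ H := by
    intro z hz
    unfold SH at hz
    rw [Finset.mem_filter, Finset.mem_Icc] at hz
    exact hz.1
  have key : ∀ r : ℕ, r.Prime → a + M * t < r → r ≤ a + M * t + H →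
      ∃ z ∈ SH H M a, a + z + M * t = r := by
    intro r hr h1 h2
    refine ⟨r - (a + M * t), ?_, by omega⟩
    unfold SH
    rw [Finset.mem_filter, Finset.mem_Icc]
    refine ⟨⟨by omega, by omega⟩, ?_⟩
    have h3 : a + (r - (a + M * t)) + M * t = r := by omega
    by_contra hc
    obtain ⟨l, hl, hla, hlM⟩ := Nat.Prime.not_coprime_iff_dvd.1 hc
    have h4 : l ∣ r := by
      rw [← h3]
      exact dvd_add hla (hlM.trans (dvd_mul_right _ _))
    have h5 : l = r := ((Nat.prime_dvd_prime_iff_eq hl hr).1 h4)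
    have h6 := hM l hl hlM
    omega
  have hpm := pos_strictMono v hv
  have hstep : ∀ i : ℕ, ∀ hi : i < k + 1,
      Nat.nth Nat.Prime (Nat.count Nat.Prime (a + (x + pos v 0) + M * t) + i) =
        a + (x + pos v ⟨i, hi⟩) + M * t := by
    intro i
    induction i with
    | zero =>
      intro hi
      exact Nat.nth_count (hx 0).2
    | succ i ih =>
      intro hi
      have hi' : i < k + 1 := by omega
      have h1 := ih hi'
      have hp := (hx ⟨i, hi'⟩).2
      have hq := (hx ⟨i + 1, hi⟩).2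
      have hlt : pos v ⟨i, hi'⟩ < pos v ⟨i + 1, hi⟩ := hpm (by
        rw [Fin.lt_def]
        exact Nat.lt_succ_self i)
      have hc0 : Nat.count Nat.Prime (a + (x + pos v ⟨i, hi'⟩) + M * t) =
          Nat.count Nat.Prime (a + (x + pos v 0) + M * t) + i := by
        rw [← h1]
        exact Nat.count_nth_of_infinite hinf _
      have hc1 : Nat.count Nat.Prime (a + (x + pos v ⟨i, hi'⟩) + M * t + 1) =
          Nat.count Nat.Prime (a + (x + pos v ⟨i, hi'⟩) + M * t) + 1 := by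
        rw [Nat.count_succ, if_pos hp]
      have hc2 : Nat.count Nat.Prime (a + (x + pos v ⟨i + 1, hi⟩) + M * t + 1) =
          Nat.count Nat.Prime (a + (x + pos v ⟨i + 1, hi⟩) + M * t) + 1 := by
        rw [Nat.count_succ, if_pos hq]
      have hc3 : Nat.count Nat.Prime (a + (x + pos v ⟨i, hi'⟩) + M * t + 1) ≤
          Nat.count Nat.Prime (a + (x + pos v ⟨i + 1, hi⟩) + M * t) :=
        Nat.count_monotone _ (by omega)
      have hle : Nat.nth Nat.Prime (Nat.count Nat.Prime (a + (x + pos v 0) + M * t) + (i + 1)) <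
          a + (x + pos v ⟨i + 1, hi⟩) + M * t + 1 := by
        apply Nat.nth_lt_of_lt_count
        omega
      have hlt' : a + (x + pos v ⟨i, hi'⟩) + M * t <
          Nat.nth Nat.Prime (Nat.count Nat.Prime (a + (x + pos v 0) + M * t) + (i + 1)) := by
        rw [← h1]
        exact hmono (by omega)
      by_contra hne
      have hr : (Nat.nth Nat.Prime
          (Nat.count Nat.Prime (a + (x + pos v 0) + M * t) + (i + 1))).Prime :=
        Nat.nth_mem_of_infinite hinf _
      have hb1 := (hSE _ (hx ⟨i, hi'⟩).1).1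
      have hb2 := (hSE _ (hx ⟨i + 1, hi⟩).1).2
      obtain ⟨z, hz, hzr⟩ := key _ hr (by omega) (by omega)
      have hlast := pos_le_last v ⟨i + 1, hi⟩
      obtain ⟨j, hj⟩ := hno z hz (by omega) (by omega) (by rw [hzr]; exact hr)
      have h2 : pos v ⟨i, hi'⟩ < pos v j := by omega
      have h3 : pos v j < pos v ⟨i + 1, hi⟩ := by omega
      have h4 := hpm.lt_iff_lt.1 h2
      have h5 := hpm.lt_iff_lt.1 h3
      rw [Fin.lt_def] at h4 h5
      have h6 : i < (j : ℕ) := h4
      have h7 : (j : ℕ) < i + 1 := h5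
      omega
  refine ⟨Nat.count Nat.Prime (a + (x + pos v 0) + M * t), ?_, ?_, ?_⟩
  · have h1 := hstep 0 (Nat.succ_pos k)
    rw [Nat.add_zero] at h1
    rw [h1]
    have h2 := (hSE _ (hx 0).1).1
    have h3 : pos v ⟨0, Nat.succ_pos k⟩ = pos v 0 := rfl
    omega
  · rw [hstep k (Nat.lt_succ_self k)]
    have h2 := (hSE _ (hx (Fin.last k)).1).2
    have h3 : pos v ⟨k, Nat.lt_succ_self k⟩ = pos v (Fin.last k) := rfl
    omega
  · intro i
    have h1 := hstep i (by omega)
    have h2 := hstep (i + 1) (by omega)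
    rw [h1, Nat.add_assoc, h2]
    have h3 := pos_succ v i
    have h4 : pos v ⟨(i : ℕ), by omega⟩ = pos v i.castSucc := rfl
    have h5 : pos v ⟨(i : ℕ) + 1, by omega⟩ = pos v i.succ := rfl
    omega

open Classical in
/-- As `H77V.a8_count` (copy its proof). -/
theorem g2_count (k : ℕ) (x : ℝ) (H y M a T : ℕ) (v : Fin k → ℕ) (hya : y < a)
    (hv : ∀ i, 1 ≤ v i) (hM : ∀ p : ℕ, p.Prime → p ∣ M → p ≤ y) (hHM : H < M)
    (hx : ((a + M * T + H : ℕ) : ℝ) ≤ x) :
    (((Icc 1 T).filter (fun t => GK (SH H M a) a M v t)).card : ℝ) ≤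
      (Set.ncard {n : ℕ | (Nat.nth Nat.Prime (n + k) : ℝ) ≤ x ∧
        ∀ i : Fin k, Nat.nth Nat.Prime (n + i + 1) = Nat.nth Nat.Prime (n + i) + v i} : ℝ) := by
  have hmono := Nat.nth_strictMono Nat.infinite_setOfPred_prime
  set S := {n : ℕ | (Nat.nth Nat.Prime (n + k) : ℝ) ≤ x ∧
        ∀ i : Fin k, Nat.nth Nat.Prime (n + i + 1) = Nat.nth Nat.Prime (n + i) + v i} with hS
  set A := (Icc 1 T).filter (fun t => GK (SH H M a) a M v t) with hA
  have hfin : S.Finite := by
    refine (Set.finite_Iic ⌊x⌋₊).subset ?_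
    rintro n ⟨hn, -⟩
    have h1 : n + k ≤ Nat.nth Nat.Prime (n + k) := hmono.le_apply
    have h2 : ((n : ℕ) : ℝ) ≤ x := by
      have h3 : ((n + k : ℕ) : ℝ) ≤ (Nat.nth Nat.Prime (n + k) : ℝ) := by exact_mod_cast h1
      have h4 : (n : ℝ) ≤ ((n + k : ℕ) : ℝ) := by exact_mod_cast Nat.le_add_right n k
      linarith
    exact Nat.le_floor h2
  have hex : ∀ t ∈ A, ∃ n : ℕ, a + M * t < Nat.nth Nat.Prime n ∧
      Nat.nth Nat.Prime (n + k) ≤ a + M * t + H ∧
      ∀ i : Fin k, Nat.nth Nat.Prime (n + i + 1) = Nat.nth Nat.Prime (n + i) + v i :=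
    fun t ht => g2_one k H y M a v hya hv hM t (Finset.mem_filter.1 ht).2
  choose! nn hnn using hex
  have h1 : A.image nn ⊆ hfin.toFinset := by
    intro n hn
    obtain ⟨t, ht, rfl⟩ := Finset.mem_image.1 hn
    rw [Set.Finite.mem_toFinset]
    obtain ⟨-, h2, h3⟩ := hnn t ht
    refine ⟨?_, h3⟩
    have htT : t ≤ T := (Finset.mem_Icc.1 (Finset.mem_filter.1 ht).1).2
    have h4 : Nat.nth Nat.Prime (nn t + k) ≤ a + M * T + H := by
      have h5 : M * t ≤ M * T := Nat.mul_le_mul_left _ htT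
      omega
    have h5 : (Nat.nth Nat.Prime (nn t + k) : ℝ) ≤ ((a + M * T + H : ℕ) : ℝ) := by
      exact_mod_cast h4
    linarith
  have h2 : Set.InjOn nn (A : Set ℕ) := by
    have key : ∀ t ∈ A, ∀ t' ∈ A, t < t' → nn t ≠ nn t' := by
      intro t ht t' ht' htt heq
      obtain ⟨-, h3, -⟩ := hnn t ht
      obtain ⟨h4, -, -⟩ := hnn t' ht'
      have h5 : Nat.nth Nat.Prime (nn t) ≤ Nat.nth Nat.Prime (nn t + k) :=
        hmono.monotone (Nat.le_add_right _ _)
      have h6 : M * (t + 1) ≤ M * t' := Nat.mul_le_mul_left _ htt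
      rw [Nat.mul_add, Nat.mul_one] at h6
      rw [← heq] at h4
      omega
    intro t ht t' ht' heq
    rcases lt_trichotomy t t' with h | h | h
    · exact absurd heq (key t ht t' ht' h)
    · exact h
    · exact absurd heq.symm (key t' ht' t ht h)
  have h3 := Finset.card_le_card h1
  rw [Finset.card_image_of_injOn h2, ← Set.ncard_eq_toFinset_card S hfin] at h3
  exact_mod_cast h3

/-- As `H77V.a8_sum`. -/
theorem g2_sum (k : ℕ) (H M a t : ℕ) (v : Fin k → ℕ) (ht : GK (SH H M a) a M v t) :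
    ∑ i, v i ≤ H := by
  obtain ⟨x, hx, -⟩ := ht
  have h1 := (hx (Fin.last k)).1
  rw [pos_last] at h1
  unfold SH at h1
  rw [Finset.mem_filter, Finset.mem_Icc] at h1
  have h2 := h1.1.2
  omega

end Pool.Agent.Lib.H77W
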