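import Pool.Agent.Lib.H5C.FD2
import Pool.Agent.Lib.H5C.ER6b
import Pool.Agent.Lib.H77W.G2

/-!
# Chunk F4: the number of the gap vectors, one window
-/

open Finset Real
open Pool.Agent.Lib.H5C
open Pool.Agent.Lib.H77V

namespace Pool.Agent.Lib.H77W

private theorem f4_MX (δ : ℝ) (hδ : 0 < δ) (hδ1 : δ ≤ 1 / 100) (X y : ℕ) (D : Finset ℕ) (p1 : ℕ)
    (hX1 : (1 : ℝ) ≤ X) (hy : y ≤ ⌊δ * log (X : ℝ)⌋₊) : (MM y D p1 : ℝ) ≤ X := by
  have hX0 : (0 : ℝ) < X := by linarith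
  have h1 : (MM y D p1 : ℝ) ≤ (4 : ℝ) ^ y := by exact_mod_cast mm_le y D p1
  have hlX : 0 ≤ log (X : ℝ) := Real.log_nonneg hX1
  have h2 : (y : ℝ) ≤ δ * log X :=
    (Nat.cast_le.2 hy).trans (Nat.floor_le (by positivity))
  have h3 : (4 : ℝ) ^ y = exp (y * log 4) := by
    rw [Real.exp_nat_mul, Real.exp_log (by norm_num)]
  have h4 : log 4 ≤ 2 := by
    have h5 : (4 : ℝ) = 2 ^ 2 := by norm_num
    rw [h5, Real.log_pow]
    have := Real.log_two_lt_d9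
    push_cast
    linarith
  have h5 : (y : ℝ) * log 4 ≤ log X := by
    have h6 : 0 ≤ log (4 : ℝ) := Real.log_nonneg (by norm_num)
    calc (y : ℝ) * log 4 ≤ (δ * log X) * 2 := mul_le_mul h2 h4 h6 (by positivity)
      _ = (2 * δ) * log X := by ring
      _ ≤ 1 * log X := mul_le_mul_of_nonneg_right (by linarith) hlX
      _ = log X := one_mul _
  calc (MM y D p1 : ℝ) ≤ (4 : ℝ) ^ y := h1
    _ = exp (y * log 4) := h3
    _ ≤ exp (log X) := Real.exp_le_exp.2 h5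
    _ = X := Real.exp_log hX0

/-- Copy of the proof of `H77V.gap_vectors` (`H77V/A9.lean`), with `g2_count`, `g2_sum`; `X = ⌊x/70⌋`,
`H < M ≤ 4^y ≤ 4^⌊δ log X⌋ ≤ X`, `a + M T + H ≤ 63 X ≤ x`. -/
theorem concl_count (k : ℕ) (ε0 δ : ℝ) (hε0 : 0 < ε0) (hδ : 0 < δ) (hδ1 : δ ≤ 1 / 100) :
    ∃ x₀ : ℝ, ∀ x : ℝ, x₀ ≤ x → ∀ c : ℝ, ∀ y : ℕ, y ≤ ⌊δ * log (⌊x / 70⌋₊ : ℝ)⌋₊ →
      ∀ H : ℕ, Concl k (min ε0 1 / 2) c ⌊x / 70⌋₊ y H → ∀ H' : ℝ, (H : ℝ) ≤ H' →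
      c * (H : ℝ) ^ k ≤ (Set.ncard {h : Fin k → ℕ | ((∑ i, h i : ℕ) : ℝ) ≤ H' ∧
        x ^ (1 - ε0) ≤ (Set.ncard {n : ℕ | (Nat.nth Nat.Prime (n + k) : ℝ) ≤ x ∧
        ∀ i : Fin k, Nat.nth Nat.Prime (n + i + 1) = Nat.nth Nat.Prime (n + i) + h i} : ℝ)} :
          ℝ) := by
  classical
  set ε := min ε0 1 with hεd
  have hε : 0 < ε := lt_min hε0 one_pos
  have hε1 : ε ≤ 1 := min_le_right _ _
  obtain ⟨x₀, hx₀⟩ := fd2_ev δ ε hδ hε 0 0
  refine ⟨x₀, fun x hx c y hy H hC H' hH' => ?_⟩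
  obtain ⟨e1, e2, e3, e4, e5, e6, e7⟩ := hx₀ x hx
  set X := ⌊x / 70⌋₊ with hXd
  have hx0 : 0 < x := by linarith
  have hXx : (X : ℝ) ≤ x / 70 := Nat.floor_le (by positivity)
  have hX0 : (0 : ℝ) < X := lt_of_lt_of_le (by positivity) e7
  have hX1 : (1 : ℝ) ≤ X := by
    have h1 : 0 < X := by exact_mod_cast hX0
    exact_mod_cast h1
  obtain ⟨D, p1, a, T, hD, ha1, ha2, hMT, hHM, S, hS1, hS2, hS3⟩ := hC
  have hMX : (MM y D p1 : ℝ) ≤ X := f4_MX δ hδ hδ1 X y D p1 hX1 hy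
  set M := MM y D p1 with hMd
  have hsize : ((a + M * T + H : ℕ) : ℝ) ≤ x := by
    have h1 : ((M * T : ℕ) : ℝ) ≤ ((61 * X : ℕ) : ℝ) := Nat.cast_le.2 hMT
    have h2 : ((H : ℕ) : ℝ) ≤ M := Nat.cast_le.2 hHM.le
    push_cast at h1 ⊢
    linarith
  have hpow : x ^ (1 - ε0) ≤ (X : ℝ) ^ (1 - ε / 2) := by
    have h1 : x ^ (1 - ε0) ≤ x ^ (1 - ε) :=
      Real.rpow_le_rpow_of_exponent_le (by linarith) (by linarith [min_le_left ε0 1])
    have h2 : x ^ (1 - ε) * 140 ≤ x ^ (1 - ε / 2) := by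
      have h3 : x ^ (1 - ε / 2) = x ^ (1 - ε) * x ^ (ε / 2) := by
        rw [← Real.rpow_add hx0]
        congr 1
        ring
      rw [h3]
      exact mul_le_mul_of_nonneg_left e5 (Real.rpow_nonneg hx0.le _)
    have h3 : (x / 140) ^ (1 - ε / 2) ≤ (X : ℝ) ^ (1 - ε / 2) :=
      Real.rpow_le_rpow (by positivity) e7 (by linarith)
    have h4 : x ^ (1 - ε / 2) / 140 ≤ (x / 140) ^ (1 - ε / 2) := by
      rw [Real.div_rpow hx0.le (by norm_num)]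
      refine div_le_div_of_nonneg_left (Real.rpow_nonneg hx0.le _) (by positivity) ?_
      calc (140 : ℝ) ^ (1 - ε / 2) ≤ (140 : ℝ) ^ (1 : ℝ) :=
            Real.rpow_le_rpow_of_exponent_le (by norm_num) (by linarith)
        _ = 140 := Real.rpow_one _
    linarith
  -- the set of the vectors
  set O := {h : Fin k → ℕ | ((∑ i, h i : ℕ) : ℝ) ≤ H' ∧
        x ^ (1 - ε0) ≤ (Set.ncard {n : ℕ | (Nat.nth Nat.Prime (n + k) : ℝ) ≤ x ∧
        ∀ i : Fin k, Nat.nth Nat.Prime (n + i + 1) = Nat.nth Nat.Prime (n + i) + h i} : ℝ)}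
    with hO
  have hOfin : O.Finite := by
    refine (Set.Finite.subset (Finset.finite_toSet
      (Fintype.piFinset (fun _ : Fin k => Iic ⌊H'⌋₊))) ?_)
    intro h hh
    rw [Finset.mem_coe, Fintype.mem_piFinset]
    intro i
    rw [Finset.mem_Iic]
    apply Nat.le_floor
    refine le_trans ?_ hh.1
    exact_mod_cast Finset.single_le_sum (f := h) (fun _ _ => Nat.zero_le _) (Finset.mem_univ i)
  have hSO : (S : Set (Fin k → ℕ)) ⊆ O := by
    intro h hh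
    have hhS : h ∈ S := hh
    have hhB := hS1 hhS
    unfold Pool.Agent.Lib.H77V.box at hhB
    rw [Fintype.mem_piFinset] at hhB
    have hh1 : ∀ i, 1 ≤ h i := fun i => (Finset.mem_Icc.1 (hhB i)).1
    have hcount := g2_count k x H y M a T h ha1 hh1
      (fun p hp hpM => mm_prime y D p1 p hp hpM) hHM hsize
    refine ⟨?_, hpow.trans ((hS3 h hhS).trans hcount)⟩
    have hpos : (0 : ℝ) < (((Icc 1 T).filter (fun t => GK (SH H M a) a M h t)).card : ℝ) :=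
      lt_of_lt_of_le (Real.rpow_pos_of_pos hX0 _) (hS3 h hhS)
    have hne : ((Icc 1 T).filter (fun t => GK (SH H M a) a M h t)).Nonempty := by
      rw [← Finset.card_pos]
      exact_mod_cast hpos
    obtain ⟨t, ht⟩ := hne
    have hsum := g2_sum k H M a t h (Finset.mem_filter.1 ht).2
    have hh2 : ((∑ i, h i : ℕ) : ℝ) ≤ (H : ℝ) := by exact_mod_cast hsum
    exact hh2.trans hH'
  have hcard : (S.card : ℝ) ≤ (Set.ncard O : ℝ) := by
    rw [← Set.ncard_coe_finset]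
    exact_mod_cast Set.ncard_le_ncard hSO hOfin
  exact hS2.trans hcard

end Pool.Agent.Lib.H77W
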