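import Pool.Agent.Lib.H77V.E10
import Pool.Agent.Lib.H77W.Defs

/-!
# Chunk GA: Erdős-Rankin windows, all sieving limits
-/

open Finset Real
open Pool.Agent.Lib.H5C
open Pool.Agent.Lib.H77V

namespace Pool.Agent.Lib.H77W

/-- `GG` with the constants `c1, C1` of `er_eK`, `s = κ y`, `κ₀ = min 1 (c0/C1)` (so that
`C1 s ≤ c0 log X`, as `y ≤ log X`), `A = C2/κ`; `a₀` from `er_eK` (`y ≥ exp (loglog X/2)` is large),
`1 ≤ hE κ y ≤ y (log y)² ≤ (log X)³ ≤ WX X` (`er_sizes`), `hE κ y < MM y D p1` (`mm_ge`), `SE_eq`. -/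
theorem all_A (k : ℕ) (ε δ c0 : ℝ) (hδ : 0 < δ) (hδ1 : δ ≤ 1 / 100) (hc0 : 0 < c0)
    (hG : GG k ε δ c0) : ∃ κ₀ : ℝ, 0 < κ₀ ∧ κ₀ ≤ 1 ∧ ∀ κ : ℝ, 0 < κ → κ ≤ κ₀ →
    ∃ A c : ℝ, 0 < A ∧ 0 < c ∧ ∃ X₀ : ℕ, ∀ X : ℕ, X₀ ≤ X → ∀ y : ℕ, y ≤ ⌊δ * log X⌋₊ →
      log (log X) / 2 ≤ log y → A * (log X / log (log X)) ≤ y →
      Concl k ε c X y (hE κ y) := by
  classical
  obtain ⟨c1, C1, hc1, hC1, her⟩ := er_eK k
  obtain ⟨C2, c, hC2, hc, X₀, hX₀⟩ := hG c1 C1 hc1 hC1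
  refine ⟨min 1 (c0 / C1), lt_min one_pos (by positivity), min_le_left _ _, fun κ hκ hκ0 => ?_⟩
  have hκ1 : κ ≤ 1 := hκ0.trans (min_le_left _ _)
  have hκ2 : κ ≤ c0 / C1 := hκ0.trans (min_le_right _ _)
  have hκ3 : C1 * κ ≤ c0 := by
    rw [le_div_iff₀ hC1] at hκ2
    linarith
  obtain ⟨y1, hy1⟩ := her κ hκ hκ1
  obtain ⟨y2, hy2⟩ := er_sizes κ hκ hκ1
  obtain ⟨y3, hy3⟩ := mm_ge
  have tX : Filter.Tendsto (fun X : ℕ => log (log (X : ℝ))) Filter.atTop Filter.atTop :=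
    Real.tendsto_log_atTop.comp (Real.tendsto_log_atTop.comp tendsto_natCast_atTop_atTop)
  obtain ⟨X₁, hX₁⟩ := Filter.eventually_atTop.mp
    (tX.eventually_gt_atTop (2 * log ((max (max y1 y2) (max y3 1) : ℕ) : ℝ)))
  refine ⟨C2 / κ, c, by positivity, hc, max X₀ X₁, fun X hX y hyY hly hAy => ?_⟩
  have hXa : X₀ ≤ X := (le_max_left _ _).trans hX
  have hXb : X₁ ≤ X := (le_max_right _ _).trans hX
  have hlX := hX₁ X hXb
  have hyM : max (max y1 y2) (max y3 1) ≤ y := by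
    by_contra hcon
    have h1 : y ≤ max (max y1 y2) (max y3 1) := by omega
    have h3 : log (y : ℝ) ≤ log ((max (max y1 y2) (max y3 1) : ℕ) : ℝ) := by
      rcases Nat.eq_zero_or_pos y with h0 | h0
      · rw [h0, Nat.cast_zero, Real.log_zero]
        exact Real.log_natCast_nonneg _
      · exact Real.log_le_log (by exact_mod_cast h0) (by exact_mod_cast h1)
    linarith
  simp only [max_le_iff] at hyM
  obtain ⟨⟨hya, hyb⟩, hyc, hyd⟩ := hyM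
  obtain ⟨s1, s2, s3, s4, s5, s6, s7, s8, s9, s10, s11, s12, s13, s14, s15, s16, s17, s18⟩ :=
    hy2 y hyb
  have hy1' : (1 : ℝ) ≤ y := by exact_mod_cast hyd
  have hfl : 0 < ⌊δ * log (X : ℝ)⌋₊ := lt_of_lt_of_le hyd hyY
  have hpos : 1 ≤ δ * log (X : ℝ) := (Nat.floor_pos.1 hfl)
  have hlogX0 : 0 < log (X : ℝ) := by
    by_contra hcon
    have h1 : δ * log (X : ℝ) ≤ 0 := mul_nonpos_of_nonneg_of_nonpos hδ.le (not_lt.1 hcon)
    linarith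
  have hyX : (y : ℝ) ≤ δ * log X :=
    (Nat.cast_le.2 hyY).trans (Nat.floor_le (by linarith))
  have hyX' : (y : ℝ) ≤ log X := by
    refine hyX.trans ?_
    calc δ * log (X : ℝ) ≤ 1 * log (X : ℝ) := by
          refine mul_le_mul_of_nonneg_right ?_ hlogX0.le
          linarith
      _ = log (X : ℝ) := one_mul _
  have hL1 : (1 : ℝ) ≤ log X := hy1'.trans hyX'
  obtain ⟨D, p1, hD, hmain⟩ := hX₀ X hXa y hyY hly
  obtain ⟨a₀, e1, e2, e3⟩ := hy1 y hya D p1 hD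
  rw [SE_eq] at e1 e2 e3
  have hH1 : 1 ≤ hE κ y := by omega
  have hHW : hE κ y ≤ WX X := by
    have h1 : (hE κ y : ℝ) ≤ (log (X : ℝ)) ^ 16 := by
      have h2 : log (y : ℝ) ≤ log X := by
        have := Real.log_le_sub_one_of_pos (show (0 : ℝ) < y by linarith)
        linarith
      have h3 : 0 ≤ log (y : ℝ) := by linarith
      calc (hE κ y : ℝ) ≤ y * (log y) ^ 2 := s10
        _ ≤ log X * (log (X : ℝ)) ^ 2 := by gcongr
        _ = (log (X : ℝ)) ^ 3 := by ring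
        _ ≤ (log (X : ℝ)) ^ 16 := pow_le_pow_right₀ hL1 (by norm_num)
    unfold WX
    exact_mod_cast h1.trans (Nat.le_ceil _)
  have hs1 : C2 * (log X / log (log X)) ≤ κ * (y : ℝ) := by
    calc C2 * (log (X : ℝ) / log (log X)) = κ * (C2 / κ * (log X / log (log X))) := by
          field_simp
      _ ≤ κ * (y : ℝ) := mul_le_mul_of_nonneg_left hAy hκ.le
  have hs2 : C1 * (κ * (y : ℝ)) ≤ c0 * log X := by
    calc C1 * (κ * (y : ℝ)) = (C1 * κ) * y := by ring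
      _ ≤ c0 * log X := mul_le_mul hκ3 hyX' (by linarith) hc0.le
  obtain ⟨a, T, ha1, ha2, hMT, V, hV1, hV2, hV3⟩ :=
    hmain (hE κ y) a₀ (κ * y) hH1 hHW hs1 hs2 e1 e2 e3
  exact ⟨D, p1, a, T, hD, ha1, ha2, hMT, hy3 y hyc D p1 hD κ hκ hκ1, V, hV1, hV2, hV3⟩

end Pool.Agent.Lib.H77W
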