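import Pool.Agent.Lib.H5C.ER4
import Pool.Agent.Lib.H77W.Defs

/-!
# Chunk S1: the survivors of the residue class `0`
-/

open Finset Real
open Pool.Agent.Lib.H5C

namespace Pool.Agent.Lib.H77W

/-- `h` is coprime to all primes `≤ y` outside `D` and different from `p1`. If no element of `D` divides
`h`, write `h = p1^b m`, `p1 ∤ m` (`Nat.exists_eq_pow_mul_and_not_dvd`); all prime factors of `m` are `> y`,
and `m ≤ H < y²`, so `m = 1` or `m` is a prime. Cf. `re_cases` (`H5C/ER3b.lean`). -/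
theorem sh_cases (y H p1 : ℕ) (D : Finset ℕ) (hD : OKD y D p1) (hH : H < y ^ 2) (h : ℕ)
    (hh : h ∈ SH H (MM y D p1) 0) :
    (∃ b q : ℕ, q.Prime ∧ y < q ∧ h = p1 ^ b * q) ∨ h ∈ R2 H p1 D := by
  rw [SH, Finset.mem_filter, zero_add] at hh
  obtain ⟨hI, hcop⟩ := hh
  have hI' := Finset.mem_Icc.mp hI
  by_cases h2 : ∃ d ∈ D, d ∣ h
  · right
    rw [R2, Finset.mem_union, Finset.mem_filter]
    exact Or.inl ⟨hI, h2⟩
  have hp1 : p1.Prime := hD.1
  obtain ⟨b, m, hpm, hm⟩ := Nat.exists_eq_pow_mul_and_not_dvd (n := h) (by omega) p1 hp1.ne_one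
  have hm0 : m ≠ 0 := by
    rintro rfl
    rw [mul_zero] at hm
    omega
  have hmh : m ∣ h := ⟨p1 ^ b, by rw [hm, mul_comm]⟩
  have hmle : m ≤ h := Nat.le_of_dvd (by omega) hmh
  have hbig : ∀ q : ℕ, q.Prime → q ∣ m → y < q := by
    intro q hq hqm
    by_contra hcon
    push Not at hcon
    have hqh : q ∣ h := hqm.trans hmh
    have hqD : q ∉ D := fun hqD => h2 ⟨q, hqD, hqh⟩
    have hqp : q ≠ p1 := by
      rintro rfl
      exact hpm hqm
    have hqM : q ∣ MM y D p1 := by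
      rw [MM]
      apply Finset.dvd_prod_of_mem (fun p => p)
      rw [MS, Finset.mem_filter, Finset.mem_Icc]
      exact ⟨⟨hq.one_le, hcon⟩, hq, hqD, hqp⟩
    exact Nat.Prime.not_dvd_one hq (hcop ▸ Nat.dvd_gcd hqh hqM)
  by_cases hm1 : m = 1
  · right
    rw [R2, Finset.mem_union, Finset.mem_filter, Finset.mem_filter]
    refine Or.inr ⟨hI, b, ?_, ?_⟩
    · have := Nat.lt_pow_self hp1.one_lt (n := b)
      rw [hm1, mul_one] at hm
      omega
    · rw [hm, hm1, mul_one]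
  · left
    refine ⟨b, m, ?_, ?_, hm⟩
    · by_contra hnp
      have h3 := Nat.minFac_sq_le_self (Nat.pos_of_ne_zero hm0) hnp
      have h4 := hbig _ (Nat.minFac_prime hm1) (Nat.minFac_dvd m)
      have h5 : y ^ 2 ≤ m.minFac ^ 2 := Nat.pow_le_pow_left h4.le 2
      omega
    · exact lt_of_lt_of_le (hbig _ (Nat.minFac_prime hm1) (Nat.minFac_dvd m))
        (Nat.minFac_le (Nat.pos_of_ne_zero hm0))

/-- Every prime in `(y, H]` is coprime to `MM y D p1`. -/
theorem sh_prime (y H p1 : ℕ) (D : Finset ℕ) (q : ℕ) (hq : q.Prime) (hy : y < q) (hqH : q ≤ H) :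
    q ∈ SH H (MM y D p1) 0 := by
  rw [SH, Finset.mem_filter, zero_add, Finset.mem_Icc]
  refine ⟨⟨hq.one_le, hqH⟩, ?_⟩
  rw [MM]
  apply Nat.Coprime.prod_right
  intro p hp
  rw [MS, Finset.mem_filter, Finset.mem_Icc] at hp
  rw [Nat.coprime_primes hq hp.2.1]
  omega

end Pool.Agent.Lib.H77W
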