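import Pool.Agent.Lib.H5C.ER4
import Pool.Agent.Lib.H77W.Defs

/-!
# Chunk S2: the exceptional part is small
-/

open Finset Real
open Pool.Agent.Lib.H5C

namespace Pool.Agent.Lib.H77W

private theorem S2_mult : ∃ y₀ : ℕ, ∀ y : ℕ, y₀ ≤ y →
    ∀ (D : Finset ℕ) (p1 : ℕ), OKD y D p1 → ∀ H : ℕ,
      (((Icc 1 H).filter (fun h => ∃ d ∈ D, d ∣ h)).card : ℝ) ≤ H / (log y) ^ 4 := by
  have t1 : Filter.Tendsto (fun y : ℕ => log (y : ℝ)) Filter.atTop Filter.atTop :=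
    Real.tendsto_log_atTop.comp tendsto_natCast_atTop_atTop
  have e1 : ∀ᶠ v : ℝ in Filter.atTop, v ^ 9 ≤ exp (v / 2) := by
    have h3 := (isLittleO_pow_exp_pos_mul_atTop 9 (show (0 : ℝ) < 1 / 2 by norm_num)).def
      (show (0 : ℝ) < 1 by norm_num)
    filter_upwards [h3, Filter.eventually_ge_atTop 0] with v hv hv1
    rw [Real.norm_of_nonneg (by positivity), Real.norm_of_nonneg (by positivity), one_mul] at hv
    calc v ^ 9 ≤ exp (1 / 2 * v) := hv
      _ = exp (v / 2) := by ring_nf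
  obtain ⟨y₁, hy₁⟩ := Filter.eventually_atTop.mp
    ((t1.eventually_ge_atTop 1).and (t1.eventually e1))
  refine ⟨max 1 y₁, fun y hy D p1 hD H => ?_⟩
  obtain ⟨a1, a2⟩ := hy₁ y ((le_max_right _ _).trans hy)
  have hy1 : 1 ≤ y := (le_max_left _ _).trans hy
  have hy0 : (0 : ℝ) < y := by
    have : 0 < y := by omega
    exact_mod_cast this
  have hl0 : 0 < log (y : ℝ) := by linarith
  have hsub : (Icc 1 H).filter (fun h => ∃ d ∈ D, d ∣ h) ⊆
      D.biUnion (fun d => (Icc 1 H).filter (fun h => d ∣ h)) := by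
    intro h hh
    rw [Finset.mem_filter] at hh
    obtain ⟨h1, d, hd, hdh⟩ := hh
    rw [Finset.mem_biUnion]
    exact ⟨d, hd, Finset.mem_filter.mpr ⟨h1, hdh⟩⟩
  have hcard : ∀ d : ℕ, ((Icc 1 H).filter (fun h => d ∣ h)).card = H / d := by
    intro d
    have : Icc 1 H = Ioc 0 H := by
      ext a
      rw [Finset.mem_Icc, Finset.mem_Ioc]
      omega
    rw [this]
    exact Nat.Ioc_filter_dvd_card_eq_div _ _
  have hsq : √(y : ℝ) = exp (log y / 2) := by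
    rw [Real.sqrt_eq_rpow, Real.rpow_def_of_pos hy0]
    congr 1
    ring
  have hsqpos : 0 < √(y : ℝ) := Real.sqrt_pos.mpr hy0
  have h1 : (((Icc 1 H).filter (fun h => ∃ d ∈ D, d ∣ h)).card : ℝ) ≤
      ∑ d ∈ D, ((H / d : ℕ) : ℝ) := by
    have := (Finset.card_le_card hsub).trans Finset.card_biUnion_le
    rw [Finset.sum_congr rfl (fun d _ => hcard d)] at this
    exact_mod_cast this
  have h2 : ∑ d ∈ D, ((H / d : ℕ) : ℝ) ≤ ∑ _d ∈ D, ((H : ℝ) / √(y : ℝ)) := by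
    apply Finset.sum_le_sum
    intro d hd
    have h3 := (hD.2.1 d hd).2.1
    have h4 : √(y : ℝ) ≤ d := by
      have h5 : y < (Nat.sqrt y + 1) * (Nat.sqrt y + 1) := Nat.lt_succ_sqrt y
      have h6 : (Nat.sqrt y + 1) * (Nat.sqrt y + 1) ≤ d * d := Nat.mul_le_mul h3 h3
      have h7 : (y : ℝ) ≤ (d : ℝ) ^ 2 := by
        rw [sq]
        exact_mod_cast (h5.le.trans h6)
      exact Real.sqrt_le_iff.mpr ⟨Nat.cast_nonneg _, h7⟩
    calc ((H / d : ℕ) : ℝ) ≤ (H : ℝ) / d := Nat.cast_div_le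
      _ ≤ H / √(y : ℝ) := div_le_div_of_nonneg_left (Nat.cast_nonneg _) hsqpos h4
  refine h1.trans (h2.trans ?_)
  rw [Finset.sum_const, nsmul_eq_mul]
  calc (D.card : ℝ) * (H / √(y : ℝ)) ≤ (log y) ^ 5 * (H / √(y : ℝ)) :=
        mul_le_mul_of_nonneg_right hD.2.2 (by positivity)
    _ = H * ((log y) ^ 5 / √(y : ℝ)) := by ring
    _ ≤ H * (1 / (log y) ^ 4) := by
        apply mul_le_mul_of_nonneg_left _ (Nat.cast_nonneg _)
        rw [div_le_div_iff₀ hsqpos (by positivity), one_mul, hsq, ← pow_add]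
        exact a2
    _ = H / (log y) ^ 4 := by ring

private theorem S2_pow (H p1 : ℕ) (hp1 : 2 ≤ p1) :
    ((Icc 1 H).filter (fun h => ∃ b ≤ h, h = p1 ^ b)).card ≤ Nat.log 2 H + 1 := by
  have hsub : (Icc 1 H).filter (fun h => ∃ b ≤ h, h = p1 ^ b) ⊆
      (range (Nat.log 2 H + 1)).image (fun b => p1 ^ b) := by
    intro h hh
    rw [Finset.mem_filter, Finset.mem_Icc] at hh
    obtain ⟨⟨_, hH⟩, b, _, hb⟩ := hh
    rw [Finset.mem_image]
    refine ⟨b, ?_, hb.symm⟩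
    rw [Finset.mem_range]
    have h2 : 2 ^ b ≤ H := (Nat.pow_le_pow_left hp1 b).trans (hb ▸ hH)
    have := Nat.le_log_of_pow_le (b := 2) (by norm_num) h2
    omega
  refine (Finset.card_le_card hsub).trans (Finset.card_image_le.trans ?_)
  rw [Finset.card_range]

/-- Multiples of `d ∈ D`: at most `H/d ≤ H/√y` each (cf. `mult_count` in `H5C/ER4.lean`), `|D| ≤ (log y)^5`;
powers of `p1`: at most `log H/log 2 + 1 ≤ 4 log y + 1` of them (`H < y²`), which is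
`≤ y/(log y)^4 ≤ H/(log y)^4`. -/
theorem card_R2 : ∃ y₀ : ℕ, ∀ y : ℕ, y₀ ≤ y → ∀ (D : Finset ℕ) (p1 : ℕ), OKD y D p1 →
    ∀ H : ℕ, y ≤ H → H < y ^ 2 → ((R2 H p1 D).card : ℝ) ≤ 2 * (H / (log y) ^ 4) := by
  have t1 : Filter.Tendsto (fun y : ℕ => log (y : ℝ)) Filter.atTop Filter.atTop :=
    Real.tendsto_log_atTop.comp tendsto_natCast_atTop_atTop
  have e1 : ∀ᶠ v : ℝ in Filter.atTop, 4 * v ^ 5 ≤ exp v := by
    have h3 := (isLittleO_pow_exp_pos_mul_atTop 5 (show (0 : ℝ) < 1 by norm_num)).def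
      (show (0 : ℝ) < 1 / 4 by norm_num)
    filter_upwards [h3, Filter.eventually_ge_atTop 0] with v hv hv1
    rw [Real.norm_of_nonneg (by positivity), Real.norm_of_nonneg (by positivity), one_mul] at hv
    linarith
  obtain ⟨y₀, hy₀⟩ := S2_mult
  obtain ⟨y₁, hy₁⟩ := Filter.eventually_atTop.mp
    ((t1.eventually_ge_atTop 1).and (t1.eventually e1))
  refine ⟨max (max 1 y₀) y₁, fun y hy D p1 hD H hH1 hH2 => ?_⟩
  obtain ⟨a1, a2⟩ := hy₁ y ((le_max_right _ _).trans hy)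
  have hy1 : 1 ≤ y := (le_max_left _ _).trans ((le_max_left _ _).trans hy)
  have hyy : y₀ ≤ y := (le_max_right _ _).trans ((le_max_left _ _).trans hy)
  have hy0 : (0 : ℝ) < y := by exact_mod_cast (show 0 < y by omega)
  have hl0 : 0 < log (y : ℝ) := by linarith
  rw [Real.exp_log hy0] at a2
  have hHpos : (0 : ℝ) < H := by exact_mod_cast (show 0 < H by omega)
  have b0 := hy₀ y hyy D p1 hD H
  have hpow := S2_pow H p1 hD.1.two_le
  have b1 : (2 : ℝ) ^ Nat.log 2 H ≤ H := by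
    have := Nat.pow_log_le_self 2 (show H ≠ 0 by omega)
    exact_mod_cast this
  have b2 := Real.log_le_log (by positivity) b1
  rw [Real.log_pow] at b2
  have b3 : (H : ℝ) ≤ (y : ℝ) ^ 2 := by exact_mod_cast hH2.le
  have b4 := Real.log_le_log hHpos b3
  rw [Real.log_pow] at b4
  push_cast at b4
  have b5 := Real.log_two_gt_d9
  have b6 : (0 : ℝ) ≤ Nat.log 2 H := Nat.cast_nonneg _
  have b7 : (2 / 3 : ℝ) * Nat.log 2 H ≤ Nat.log 2 H * log 2 := by
    rw [mul_comm]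
    apply mul_le_mul_of_nonneg_left _ b6
    linarith
  have b8 : (Nat.log 2 H : ℝ) + 1 ≤ 4 * log y := by linarith
  have b9 : 4 * log (y : ℝ) ≤ H / (log y) ^ 4 := by
    rw [le_div_iff₀ (by positivity)]
    calc 4 * log (y : ℝ) * log y ^ 4 = 4 * log (y : ℝ) ^ 5 := by ring
      _ ≤ (y : ℝ) := a2
      _ ≤ (H : ℝ) := by exact_mod_cast hH1
  have c1 : ((R2 H p1 D).card : ℝ) ≤ (((Icc 1 H).filter (fun h => ∃ d ∈ D, d ∣ h)).card : ℝ) +
      (((Icc 1 H).filter (fun h => ∃ b ≤ h, h = p1 ^ b)).card : ℝ) := by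
    unfold R2
    exact_mod_cast Finset.card_union_le _ _
  have c2 : (((Icc 1 H).filter (fun h => ∃ b ≤ h, h = p1 ^ b)).card : ℝ) ≤ Nat.log 2 H + 1 := by
    exact_mod_cast hpow
  linarith

end Pool.Agent.Lib.H77W
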