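import Pool.Agent.Lib.H5C.ER5
import Pool.Agent.Lib.H77W.S1
import Pool.Agent.Lib.H77W.S2

/-!
# Chunk S3: the number of the survivors of the residue class `0`, upper bound
-/

open Finset Real
open Pool.Agent.Lib.H5C

namespace Pool.Agent.Lib.H77W

/-- `sh_cases`; the part `p1^b q` by `er5_pq` (`H5C/ER5.lean`) with `u = 0`, `d = H`
(`p1^b y ≤ H` gives `H/p1^b ≥ y ≥ exp (log y/2)`; see `re_upper` in `H5C` for its use), `card_R2`
(`H ≤ y log y < y²`). -/
theorem sh_upper : ∃ C : ℝ, 0 < C ∧ ∃ y₀ : ℕ, ∀ y : ℕ, y₀ ≤ y → ∀ (D : Finset ℕ) (p1 : ℕ),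
    OKD y D p1 → ∀ H : ℕ, 2 * y ≤ H → (H : ℝ) ≤ y * log y →
      ((SH H (MM y D p1) 0).card : ℝ) ≤ C * (H / log y) := by
  classical
  obtain ⟨C0, hC0, hBT⟩ := brun_titchmarsh
  refine ⟨8 * C0 + 2, by positivity, ?_⟩
  obtain ⟨y1, hy1⟩ := er5_pow
  obtain ⟨y2, hy2⟩ := card_R2
  have t1 : Filter.Tendsto (fun y : ℕ => log (y : ℝ)) Filter.atTop Filter.atTop :=
    Real.tendsto_log_atTop.comp tendsto_natCast_atTop_atTop
  obtain ⟨y3, hy3⟩ := Filter.eventually_atTop.mp (t1.eventually_ge_atTop 100)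
  refine ⟨y1 + y2 + y3, fun y hy D p1 hD H hH1 hH2 => ?_⟩
  obtain ⟨-, hpow⟩ := hy1 y (by omega)
  have hl1 : 100 ≤ log (y : ℝ) := hy3 y (by omega)
  have hl0 : 0 < log (y : ℝ) := by linarith
  have hypos : (0 : ℝ) < y := by
    by_contra hcon
    have h0 : (y : ℝ) = 0 := le_antisymm (not_lt.1 hcon) (Nat.cast_nonneg _)
    rw [h0, Real.log_zero] at hl1
    linarith
  have hHsq : H < y ^ 2 := by
    have h1 : log (y : ℝ) < y := by
      have := Real.log_le_sub_one_of_pos hypos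
      linarith
    have h2 : (H : ℝ) < (y : ℝ) ^ 2 := by
      calc (H : ℝ) ≤ y * log y := hH2
        _ < y * y := mul_lt_mul_of_pos_left h1 hypos
        _ = (y : ℝ) ^ 2 := (sq _).symm
    exact_mod_cast h2
  have hexp : exp (log (y : ℝ) / 2) ≤ y := by
    refine le_trans ?_ hpow
    have h1 : (1 : ℝ) ≤ (log (y : ℝ)) ^ 3 := one_le_pow₀ (by linarith)
    exact le_mul_of_one_le_left (Real.exp_pos _).le h1
  set S0 := SH H (MM y D p1) 0 with hS0
  set S := S0.filter (fun h => ∃ b q : ℕ, q.Prime ∧ y < q ∧ h = p1 ^ b * q) with hS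
  have hsub : S0 ⊆ S ∪ R2 H p1 D := by
    intro h hh
    rw [Finset.mem_union]
    rcases sh_cases y H p1 D hD hHsq h hh with h1 | h1
    · exact Or.inl (Finset.mem_filter.mpr ⟨hh, h1⟩)
    · exact Or.inr h1
  have hScard : (S.card : ℝ) ≤ 8 * C0 * ((H : ℝ) / log (y : ℝ)) := by
    refine er5_pq C0 hC0 hBT y hl1 p1 hD.1 H 0 H ?_ S ?_
    · intro b hb
      have hpb : (0 : ℝ) < ((p1 ^ b : ℕ) : ℝ) := by
        have : 0 < p1 ^ b := pow_pos hD.1.pos b
        exact_mod_cast this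
      rw [le_div_iff₀ hpb]
      have hb' : ((p1 ^ b : ℕ) : ℝ) * y ≤ H := by exact_mod_cast hb
      calc exp (log (y : ℝ) / 2) * ((p1 ^ b : ℕ) : ℝ)
          ≤ y * ((p1 ^ b : ℕ) : ℝ) := mul_le_mul_of_nonneg_right hexp hpb.le
        _ = ((p1 ^ b : ℕ) : ℝ) * y := mul_comm _ _
        _ ≤ H := hb'
    · intro h hh
      have h1 := Finset.mem_filter.mp hh
      have h2 := h1.1
      rw [hS0, SH, Finset.mem_filter, Finset.mem_Icc] at h2
      exact ⟨h2.1.1, h2.1.2, by omega, by omega, h1.2⟩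
  have hR := hy2 y (by omega) D p1 hD H (by omega) hHsq
  have hR' : ((R2 H p1 D).card : ℝ) ≤ 2 * ((H : ℝ) / log (y : ℝ)) := by
    refine hR.trans ?_
    refine mul_le_mul_of_nonneg_left ?_ (by norm_num)
    refine div_le_div_of_nonneg_left (Nat.cast_nonneg _) hl0 ?_
    calc log (y : ℝ) = (log (y : ℝ)) ^ 1 := (pow_one _).symm
      _ ≤ (log (y : ℝ)) ^ 4 := pow_le_pow_right₀ (by linarith) (by norm_num)
  have hcard : (S0.card : ℝ) ≤ S.card + (R2 H p1 D).card := by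
    have h1 := (Finset.card_le_card hsub).trans (Finset.card_union_le S (R2 H p1 D))
    exact_mod_cast h1
  have h5 : (8 * C0 + 2) * ((H : ℝ) / log (y : ℝ)) =
      8 * C0 * ((H : ℝ) / log (y : ℝ)) + 2 * ((H : ℝ) / log (y : ℝ)) := by ring
  rw [h5]
  linarith

end Pool.Agent.Lib.H77W
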