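import Pool.Agent.Lib.H5C.ER5
import Pool.Agent.Lib.H77W.S1

/-!
# Chunk S4: the number of the survivors of the residue class `0`, lower bound
-/

open Finset Real
open Pool.Agent.Lib.H5C

namespace Pool.Agent.Lib.H77W

/-- The primes in `(H/2, H]` (`H/2 ≥ y`) are survivors (`sh_prime`); their number is `≥ c H/log H` as in
the proof of `re_lower` (`H5C/ER3b.lean`); `log H ≤ 2 log y`. -/
theorem sh_lower : ∃ c : ℝ, 0 < c ∧ ∃ y₀ : ℕ, ∀ y : ℕ, y₀ ≤ y → ∀ (D : Finset ℕ) (p1 : ℕ),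
    OKD y D p1 → ∀ H : ℕ, 2 * y ≤ H → (H : ℝ) ≤ y * log y →
      c * (H / log y) ≤ ((SH H (MM y D p1) 0).card : ℝ) := by
  obtain ⟨N, hN2, hN⟩ := Pool.Agent.Lib.H10.LPF.exists_pi_sub_ge
  refine ⟨1 / 8, by norm_num, max 2 N, fun y hy D p1 hD H hyH hHy => ?_⟩
  have hyN : N ≤ y := (le_max_right _ _).trans hy
  have hy2 : 2 ≤ y := (le_max_left _ _).trans hy
  have hyH1 : y ≤ H := by omega
  have h1 := hN H (hyN.trans hyH1)
  have hsub : ((Pool.Agent.Lib.Sieve.primesUpTo H).filter (fun p => H / 2 < p))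
      ⊆ SH H (MM y D p1) 0 := by
    intro q hq
    rw [Finset.mem_filter, Pool.Agent.Lib.Sieve.mem_primesUpTo] at hq
    obtain ⟨⟨hqp, hqH⟩, hq2⟩ := hq
    exact sh_prime y H p1 D q hqp (by omega) hqH
  have h2 : (((Pool.Agent.Lib.Sieve.primesUpTo H).filter
      (fun p => H / 2 < p)).card : ℝ) ≤ ((SH H (MM y D p1) 0).card : ℝ) := by
    exact_mod_cast Finset.card_le_card hsub
  refine le_trans ?_ (h1.trans h2)
  have hy0 : (0 : ℝ) < y := by
    have : 0 < y := by omega
    exact_mod_cast this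
  have hH0 : (0 : ℝ) < H := by
    have : 0 < H := by omega
    exact_mod_cast this
  have hlogH0 : 0 < log (H : ℝ) := by
    apply Real.log_pos
    have : 1 < H := by omega
    exact_mod_cast this
  have hlogH : log (H : ℝ) ≤ 2 * log y := by
    have h6 : log (y : ℝ) ≤ y := (Real.log_le_sub_one_of_pos hy0).trans (by linarith)
    have h7 : (H : ℝ) ≤ y * y := hHy.trans (mul_le_mul_of_nonneg_left h6 hy0.le)
    have h8 := Real.log_le_log hH0 h7
    rw [Real.log_mul hy0.ne' hy0.ne'] at h8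
    linarith
  rw [div_mul_div_comm, one_mul]
  apply div_le_div_of_nonneg_left hH0.le (by positivity)
  linarith

end Pool.Agent.Lib.H77W
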