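import Pool.Agent.Lib.H77V.E5
import Pool.Agent.Lib.H77W.S1
import Pool.Agent.Lib.H77W.S2

/-!
# Chunk S5: moments of the survivors of the residue class `0`
-/

open Finset Real
open Pool.Agent.Lib.H5C
open Pool.Agent.Lib.H77V
open Pool.Agent.Lib.H92V (v3R)

namespace Pool.Agent.Lib.H77W

/-- As `H77V.mz_RE` (`H77V/E5.lean`, copy its proof), with `H` in place of `hE κ y`, `sh_cases` in place of
`re_cases`, `R2 H p1 D` and `card_R2`. -/
theorem mz_SH (k : ℕ) : ∃ C : ℝ, 0 < C ∧ ∃ y₀ : ℕ, ∀ y : ℕ, y₀ ≤ y →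
    ∀ (D : Finset ℕ) (p1 : ℕ), OKD y D p1 → ∀ H : ℕ, 2 * y ≤ H → (H : ℝ) ≤ y * log y →
      (mz (k + 1) H (SH H (MM y D p1) 0) (SH H (MM y D p1) 0) : ℝ) ≤
        C * (H : ℝ) ^ (k + 2) / (log y) ^ (2 * (k + 1)) := by
  classical
  obtain ⟨C2, hC2, Y0, hY⟩ := mz_primes (k + 1) (Nat.succ_le_succ (Nat.zero_le k))
  obtain ⟨y2, hy2⟩ := card_R2
  refine ⟨5 ^ (2 * (k + 1)) * (C2 + 2 ^ (k + 2)), by positivity, 3 + y2 + Y0, ?_⟩
  intro y hy D p1 hD H hHy hHlog
  have hy3 : (3 : ℝ) ≤ (y : ℝ) := by exact_mod_cast (by omega : 3 ≤ y)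
  have hl : 1 ≤ log (y : ℝ) := by
    rw [Real.le_log_iff_exp_le (by linarith)]
    have := Real.exp_one_lt_d9
    linarith
  have hl0 : 0 < log (y : ℝ) := by linarith
  have hHpos : 0 < H := by omega
  have hHR : (0 : ℝ) < H := by exact_mod_cast hHpos
  have hHy2 : H < y ^ 2 := by
    have h1 : log (y : ℝ) ≤ y - 1 := Real.log_le_sub_one_of_pos (by linarith)
    have h2 : (H : ℝ) < (y : ℝ) ^ 2 := by nlinarith
    exact_mod_cast h2
  have hcases := sh_cases y H p1 D hD hHy2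
  have hcardR2 := hy2 y (by omega) D p1 hD H (by omega) hHy2
  set R := R2 H p1 D with hR2
  have hX0 : 0 < (C2 + 2 ^ (k + 2)) * ((H : ℝ) ^ (k + 2) / (log (y : ℝ)) ^ (2 * (k + 1))) := by
    positivity
  obtain ⟨A, hA0, hA⟩ : ∃ A : ℝ, 0 < A ∧ A ^ (2 * (k + 1)) =
      (C2 + 2 ^ (k + 2)) * ((H : ℝ) ^ (k + 2) / (log (y : ℝ)) ^ (2 * (k + 1))) := by
    refine ⟨((C2 + 2 ^ (k + 2)) * ((H : ℝ) ^ (k + 2) / (log (y : ℝ)) ^ (2 * (k + 1)))) ^
      ((1 : ℝ) / ((2 * (k + 1) : ℕ) : ℝ)), Real.rpow_pos_of_pos hX0 _, ?_⟩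
    rw [← Real.rpow_natCast, ← Real.rpow_mul hX0.le, one_div, inv_mul_cancel₀, Real.rpow_one]
    exact_mod_cast (by omega : 2 * (k + 1) ≠ 0)
  have hfr : 0 ≤ (H : ℝ) ^ (k + 2) / (log (y : ℝ)) ^ (2 * (k + 1)) := by positivity
  have hmzR2 : (mz (k + 1) H R R : ℝ) ≤ A ^ (2 * (k + 1)) := by
    have h1 : (mz (k + 1) H R R : ℝ) ≤ (R.card : ℝ) ^ (k + 2) := by
      exact_mod_cast mz_le_card (k + 1) H (Nat.succ_le_succ (Nat.zero_le k)) R
    calc (mz (k + 1) H R R : ℝ) ≤ (R.card : ℝ) ^ (k + 2) := h1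
      _ ≤ (2 * (H / (log (y : ℝ)) ^ 4)) ^ (k + 2) :=
          pow_le_pow_left₀ (Nat.cast_nonneg _) hcardR2 (k + 2)
      _ = 2 ^ (k + 2) * ((H : ℝ) ^ (k + 2) / (log (y : ℝ)) ^ (4 * (k + 2))) := by
          rw [mul_pow, div_pow, ← pow_mul]
      _ ≤ 2 ^ (k + 2) * ((H : ℝ) ^ (k + 2) / (log (y : ℝ)) ^ (2 * (k + 1))) := by
          apply mul_le_mul_of_nonneg_left _ (by positivity)
          apply div_le_div_of_nonneg_left (by positivity) (by positivity)
          exact pow_le_pow_right₀ hl (by omega)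
      _ ≤ A ^ (2 * (k + 1)) := by
          rw [hA]
          nlinarith [mul_nonneg hC2.le hfr]
  -- the union
  have hsub : SH H (MM y D p1) 0 ⊆
      (insertNone (range (Nat.log 2 H + 1))).biUnion (v3R H y p1 R) := by
    intro h hh
    have hIcc : h ∈ Icc 1 H := by
      rw [SH, Finset.mem_filter] at hh
      exact hh.1
    have hmem := Finset.mem_Icc.1 hIcc
    rw [Finset.mem_biUnion]
    rcases hcases h hh with ⟨b, q, hq, hyq, hbq⟩ | h1
    · have hpb : 0 < p1 ^ b := pow_pos hD.1.pos b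
      refine ⟨some b, ?_, ?_⟩
      · rw [some_mem_insertNone, Finset.mem_range, Nat.lt_succ_iff]
        apply Nat.le_log_of_pow_le (by norm_num)
        calc 2 ^ b ≤ p1 ^ b := Nat.pow_le_pow_left hD.1.two_le b
          _ ≤ p1 ^ b * q := Nat.le_mul_of_pos_right _ hq.pos
          _ ≤ H := hbq ▸ hmem.2
      · have hle : p1 ^ b * y ≤ H := by
          calc p1 ^ b * y ≤ p1 ^ b * q := Nat.mul_le_mul_left _ hyq.le
            _ ≤ H := hbq ▸ hmem.2
        change h ∈ (if p1 ^ b * y ≤ H then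
          ((Icc 1 (H / p1 ^ b)).filter Nat.Prime).image (fun q => p1 ^ b * q) else ∅)
        rw [if_pos hle, Finset.mem_image]
        refine ⟨q, ?_, hbq.symm⟩
        rw [Finset.mem_filter, Finset.mem_Icc]
        refine ⟨⟨hq.one_le, ?_⟩, hq⟩
        rw [Nat.le_div_iff_mul_le hpb, mul_comm]
        exact hbq ▸ hmem.2
    · refine ⟨none, none_mem_insertNone, ?_⟩
      change h ∈ R
      exact h1
  have hRN : ∀ i ∈ insertNone (range (Nat.log 2 H + 1)), ∀ x ∈ v3R H y p1 R i, x ≤ H := by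
    intro i _ x hx
    rcases i with _ | b
    · change x ∈ R at hx
      rw [hR2, R2, Finset.mem_union, Finset.mem_filter, Finset.mem_filter] at hx
      rcases hx with hx | hx
      · exact (Finset.mem_Icc.1 hx.1).2
      · exact (Finset.mem_Icc.1 hx.1).2
    · change x ∈ (if p1 ^ b * y ≤ H then
          ((Icc 1 (H / p1 ^ b)).filter Nat.Prime).image (fun q => p1 ^ b * q) else ∅) at hx
      split_ifs at hx with h
      · rw [Finset.mem_image] at hx
        obtain ⟨q, hq, rfl⟩ := hx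
        rw [Finset.mem_filter, Finset.mem_Icc] at hq
        calc p1 ^ b * q ≤ p1 ^ b * (H / p1 ^ b) := Nat.mul_le_mul_left _ hq.1.2
          _ ≤ H := Nat.mul_div_le H (p1 ^ b)
      · simp at hx
  have hmain := mz_biUnion (insertNone (range (Nat.log 2 H + 1))) (v3R H y p1 R)
    (fun o => o.elim A (fun b => A * (3 / 4) ^ b)) k H hRN (fun i _ => by
      rcases i with _ | b
      · exact hA0
      · exact mul_pos hA0 (by positivity)) (fun i _ => by
      rcases i with _ | b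
      · exact hmzR2
      · refine E5_class k C2 hC2 Y0 hY H y p1 hD.1 (by omega) hl b R A hA0.le ?_
        rw [hA]
        have h2 : (0 : ℝ) < 2 ^ (k + 2) := by positivity
        nlinarith [mul_nonneg h2.le hfr]) (SH H (MM y D p1) 0) hsub
  refine hmain.trans ?_
  have hsum : ∑ i ∈ insertNone (range (Nat.log 2 H + 1)),
      (fun o : Option ℕ => o.elim A (fun b => A * (3 / 4) ^ b)) i ≤ 5 * A := by
    rw [Finset.sum_insertNone]
    simp only [Option.elim_none, Option.elim_some]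
    rw [← Finset.mul_sum]
    nlinarith [E5_geom (Nat.log 2 H + 1)]
  have hsum0 : 0 ≤ ∑ i ∈ insertNone (range (Nat.log 2 H + 1)),
      (fun o : Option ℕ => o.elim A (fun b => A * (3 / 4) ^ b)) i := by
    apply Finset.sum_nonneg
    intro i _
    rcases i with _ | b
    · exact hA0.le
    · exact mul_nonneg hA0.le (by positivity)
  calc (∑ i ∈ insertNone (range (Nat.log 2 H + 1)),
      (fun o : Option ℕ => o.elim A (fun b => A * (3 / 4) ^ b)) i) ^ (2 * (k + 1))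
      ≤ (5 * A) ^ (2 * (k + 1)) := pow_le_pow_left₀ hsum0 hsum (2 * (k + 1))
    _ = 5 ^ (2 * (k + 1)) * A ^ (2 * (k + 1)) := by rw [mul_pow]
    _ = 5 ^ (2 * (k + 1)) * (C2 + 2 ^ (k + 2)) * (H : ℝ) ^ (k + 2) /
          (log y) ^ (2 * (k + 1)) := by rw [hA]; ring

end Pool.Agent.Lib.H77W
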