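import Pool.Agent.Lib.H77V.E1A
import Pool.Agent.Lib.H77W.S3
import Pool.Agent.Lib.H77W.S4
import Pool.Agent.Lib.H77W.S5

/-!
# Chunk S6: the window of regime B
-/

open Finset Real
open Pool.Agent.Lib.H5C
open Pool.Agent.Lib.H77V

namespace Pool.Agent.Lib.H77W

/-- `sh_upper`, `sh_lower`; `eK_le_mz`, `mz_SH`: with `s = H/log y`,
`eK · H^k ≤ C H^(2k+2)/(log y)^(2k+2) = C s^(2(k+1))`, and `|SH|^(k+1) H^k ≤ C^(k+1) s^(k+1) H^k`,
`H^k ≤ s^(k+1)` as `(log y)^(k+1) ≤ y ≤ H` for large `y`. `C1` = maximum of the constants. -/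
theorem sb_eK (k : ℕ) : ∃ c1 C1 : ℝ, 0 < c1 ∧ 0 < C1 ∧ ∃ y₀ : ℕ, ∀ y : ℕ, y₀ ≤ y →
    ∀ (D : Finset ℕ) (p1 : ℕ), OKD y D p1 → ∀ H : ℕ, 2 * y ≤ H → (H : ℝ) ≤ y * log y →
      c1 * (H / log y) ≤ ((SH H (MM y D p1) 0).card : ℝ) ∧
      ((SH H (MM y D p1) 0).card : ℝ) ≤ C1 * (H / log y) ∧
      (((SH H (MM y D p1) 0).card : ℝ) ^ (k + 1) +
        2 * eK (k + 1) (SH H (MM y D p1) 0) H) * (H : ℝ) ^ k ≤
        C1 * ((H : ℝ) / log y) ^ (2 * (k + 1)) := by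
  obtain ⟨c, hc, y₁, hlow⟩ := sh_lower
  obtain ⟨Cu, hCu, y₂, hup⟩ := sh_upper
  obtain ⟨Cm, hCm, y₃, hmz⟩ := mz_SH k
  -- large `y`
  have hev : ∀ᶠ x : ℝ in Filter.atTop, (log x) ^ (k + 1) ≤ x := by
    have h1 := (Real.isLittleO_pow_log_id_atTop (n := k + 1)).bound
      (by norm_num : (0 : ℝ) < 1)
    filter_upwards [h1, Filter.eventually_ge_atTop (1 : ℝ)] with x hx hx1
    rw [Real.norm_eq_abs, id, Real.norm_eq_abs, one_mul, abs_of_nonneg (by linarith : 0 ≤ x)] at hx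
    exact (le_abs_self _).trans hx
  obtain ⟨y₄, hy₄⟩ := Filter.eventually_atTop.1 (tendsto_natCast_atTop_atTop.eventually hev)
  refine ⟨c, max Cu (Cu ^ (k + 1) + 2 * Cm), hc, lt_max_of_lt_left hCu,
    max 3 (max y₁ (max y₂ (max y₃ y₄))), ?_⟩
  intro y hy D p1 hD H hyH hHy
  have hy3 : 3 ≤ y := (le_max_left _ _).trans hy
  have hy1' : y₁ ≤ y := (le_max_left _ _).trans ((le_max_right _ _).trans hy)
  have hy2' : y₂ ≤ y := (le_max_left _ _).trans ((le_max_right _ _).trans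
    ((le_max_right _ _).trans hy))
  have hy3' : y₃ ≤ y := (le_max_left _ _).trans ((le_max_right _ _).trans
    ((le_max_right _ _).trans ((le_max_right _ _).trans hy)))
  have hy4' : y₄ ≤ y := (le_max_right _ _).trans ((le_max_right _ _).trans
    ((le_max_right _ _).trans ((le_max_right _ _).trans hy)))
  have hy3r : (3 : ℝ) ≤ y := by exact_mod_cast hy3
  have hl1 : 1 ≤ log y := by
    rw [Real.le_log_iff_exp_le (by linarith)]
    have := Real.exp_one_lt_d9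
    linarith
  have hl0 : 0 < log y := by linarith
  have hH0 : (0 : ℝ) < H := by
    have : 0 < H := by omega
    exact_mod_cast this
  have hlk : (log y) ^ (k + 1) ≤ H := by
    refine (hy₄ y hy4').trans ?_
    have : y ≤ H := by omega
    exact_mod_cast this
  have hU := hup y hy2' D p1 hD H hyH hHy
  have hs0 : 0 ≤ (H : ℝ) / log y := by positivity
  refine ⟨hlow y hy1' D p1 hD H hyH hHy, hU.trans
    (mul_le_mul_of_nonneg_right (le_max_left _ _) hs0), ?_⟩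
  have h1 : (eK (k + 1) (SH H (MM y D p1) 0) H : ℝ) ≤
      Cm * (H : ℝ) ^ (k + 2) / (log y) ^ (2 * (k + 1)) := by
    refine le_trans ?_ (hmz y hy3' D p1 hD H hyH hHy)
    exact_mod_cast eK_le_mz (k + 1) (SH H (MM y D p1) 0) H
  have h2 : (eK (k + 1) (SH H (MM y D p1) 0) H : ℝ) * (H : ℝ) ^ k ≤
      Cm * ((H : ℝ) / log y) ^ (2 * (k + 1)) := by
    refine (mul_le_mul_of_nonneg_right h1 (by positivity)).trans (le_of_eq ?_)
    rw [div_pow]
    have e1 : (H : ℝ) ^ (2 * (k + 1)) = (H : ℝ) ^ (k + 2) * (H : ℝ) ^ k := by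
      rw [← pow_add]
      congr 1
      ring
    rw [e1]
    ring
  have h3 : ((SH H (MM y D p1) 0).card : ℝ) ^ (k + 1) * (H : ℝ) ^ k ≤
      Cu ^ (k + 1) * ((H : ℝ) / log y) ^ (2 * (k + 1)) := by
    have e1 : ((SH H (MM y D p1) 0).card : ℝ) ^ (k + 1) ≤ (Cu * ((H : ℝ) / log y)) ^ (k + 1) :=
      pow_le_pow_left₀ (Nat.cast_nonneg _) hU _
    have e2 : (H : ℝ) ^ k ≤ ((H : ℝ) / log y) ^ (k + 1) := by
      rw [div_pow, le_div_iff₀ (by positivity), pow_succ (H : ℝ) k]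
      exact mul_le_mul_of_nonneg_left hlk (by positivity)
    calc ((SH H (MM y D p1) 0).card : ℝ) ^ (k + 1) * (H : ℝ) ^ k
        ≤ (Cu * ((H : ℝ) / log y)) ^ (k + 1) * ((H : ℝ) / log y) ^ (k + 1) :=
          mul_le_mul e1 e2 (by positivity) (by positivity)
      _ = Cu ^ (k + 1) * ((H : ℝ) / log y) ^ (2 * (k + 1)) := by
        rw [mul_pow]
        ring
  have h4 : (((SH H (MM y D p1) 0).card : ℝ) ^ (k + 1) +
        2 * eK (k + 1) (SH H (MM y D p1) 0) H) * (H : ℝ) ^ k ≤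
        (Cu ^ (k + 1) + 2 * Cm) * ((H : ℝ) / log y) ^ (2 * (k + 1)) := by
    rw [add_mul, add_mul]
    refine add_le_add h3 ?_
    rw [mul_assoc, mul_assoc]
    exact mul_le_mul_of_nonneg_left h2 (by norm_num)
  exact h4.trans (mul_le_mul_of_nonneg_right (le_max_right _ _) (by positivity))

end Pool.Agent.Lib.H77W
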