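import Pool.Agent.Lib.H5C.FC1
import Pool.Agent.Lib.H77W.S6

/-!
# Chunk GB: short windows
-/

open Finset Real
open Pool.Agent.Lib.H5C
open Pool.Agent.Lib.H77V

namespace Pool.Agent.Lib.H77W

/-- `GG` with the constants `c1, C1` of `sb_eK`, `a₀ = 0`, `y = ⌊δ log X⌋`, `s = H/log y`,
`κ₀ = min 1 (c0/C1)`: `s ≤ κ y ≤ κ log X`, so `C1 s ≤ c0 log X`; `log y ≤ loglog X`, so
`C2 log X/loglog X ≤ s` if `C ≥ C2`; `C ≥ 2` gives `2 y ≤ H` and `1 ≤ H`; `H ≤ y log y ≤ (log X)² ≤ WX X`;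
`H ≤ y log y ≤ hE 1 y < MM y D p1` (`er_sizes`, `mm_ge`). Sizes of `y`: `fc_num`. -/
theorem all_B (k : ℕ) (ε δ c0 : ℝ) (hδ : 0 < δ) (hδ1 : δ ≤ 1 / 100) (hc0 : 0 < c0)
    (hG : GG k ε δ c0) : ∃ κ₀ : ℝ, 0 < κ₀ ∧ κ₀ ≤ 1 ∧ ∀ κ : ℝ, 0 < κ → κ ≤ κ₀ →
    ∃ C c : ℝ, 0 < C ∧ 0 < c ∧ ∃ X₀ : ℕ, ∀ X : ℕ, X₀ ≤ X → ∀ H : ℕ, C * log X ≤ H →
      (H : ℝ) ≤ κ * ((⌊δ * log X⌋₊ : ℝ) * log (⌊δ * log X⌋₊ : ℝ)) →
      Concl k ε c X ⌊δ * log X⌋₊ H := by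
  obtain ⟨c1, C1, hc1, hC1, y1, hsb⟩ := sb_eK k
  obtain ⟨C2, c, hC2, hc, X1, hGG⟩ := hG c1 C1 hc1 hC1
  refine ⟨min 1 (c0 / C1), lt_min one_pos (by positivity), min_le_left _ _, ?_⟩
  intro κ hκ hκ0
  have hκ1 : κ ≤ 1 := hκ0.trans (min_le_left _ _)
  have hκC : C1 * κ ≤ c0 := by
    have h := hκ0.trans (min_le_right _ _)
    rw [le_div_iff₀ hC1] at h
    linarith
  obtain ⟨X2, hfc⟩ := fc_num 1 δ le_rfl hδ hδ1 (by linarith)
  obtain ⟨y2, her⟩ := er_sizes 1 one_pos le_rfl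
  obtain ⟨y3, hmm⟩ := mm_ge
  have hT : Filter.Tendsto (fun X : ℕ => ⌊δ * log (X : ℝ)⌋₊) Filter.atTop Filter.atTop :=
    tendsto_nat_floor_atTop.comp
      (Filter.Tendsto.const_mul_atTop hδ
        (Real.tendsto_log_atTop.comp tendsto_natCast_atTop_atTop))
  obtain ⟨X3, hX3⟩ := Filter.eventually_atTop.1
    (hT.eventually_ge_atTop (max (max y1 y2) (max y3 3)))
  refine ⟨max C2 2, c, lt_max_of_lt_left hC2, hc, max (max X1 X2) X3, ?_⟩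
  intro X hX H hH1 hH2
  have hXX1 : X1 ≤ X := (le_max_left _ _).trans ((le_max_left _ _).trans hX)
  have hXX2 : X2 ≤ X := (le_max_right _ _).trans ((le_max_left _ _).trans hX)
  have hy : max (max y1 y2) (max y3 3) ≤ ⌊δ * log (X : ℝ)⌋₊ := hX3 X ((le_max_right _ _).trans hX)
  obtain ⟨-, -, -, hyL, -, -, -, -, hll, hlu, -, -, -, hEW, -, -⟩ := hfc X hXX2
  obtain ⟨D, p1, hD, hG2⟩ := hGG X hXX1 ⌊δ * log (X : ℝ)⌋₊ le_rfl hll
  generalize hyd : ⌊δ * log (X : ℝ)⌋₊ = y at *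
  have hy1 : y1 ≤ y := (le_max_left _ _).trans ((le_max_left _ _).trans hy)
  have hy2 : y2 ≤ y := (le_max_right _ _).trans ((le_max_left _ _).trans hy)
  have hy3 : y3 ≤ y := (le_max_left _ _).trans ((le_max_right _ _).trans hy)
  have hy4 : 3 ≤ y := (le_max_right _ _).trans ((le_max_right _ _).trans hy)
  obtain ⟨hlog, -, -, -, -, -, -, -, -, -, -, -, hyE, -⟩ := her y hy2
  have hlog0 : 0 < log (y : ℝ) := by linarith
  have hyR : (3 : ℝ) ≤ y := by exact_mod_cast hy4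
  have hLX : 0 < log (X : ℝ) := by linarith
  have hH3 : (H : ℝ) ≤ y * log y := by
    refine hH2.trans ?_
    have h : 0 ≤ (y : ℝ) * log y := by positivity
    nlinarith
  have hHE : H ≤ hE 1 y := by
    have h : (H : ℝ) ≤ (hE 1 y : ℝ) := hH3.trans hyE
    exact_mod_cast h
  have hH4 : 2 * log (X : ℝ) ≤ H :=
    (mul_le_mul_of_nonneg_right (le_max_right C2 2) hLX.le).trans hH1
  have hH5 : C2 * log (X : ℝ) ≤ H :=
    (mul_le_mul_of_nonneg_right (le_max_left C2 2) hLX.le).trans hH1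
  have hH6 : 2 * y ≤ H := by
    have h : ((2 * y : ℕ) : ℝ) ≤ (H : ℝ) := by
      push_cast
      linarith
    exact_mod_cast h
  have hHW : H ≤ WX X := by
    have h : (hE 1 y : ℝ) ≤ (WX X : ℝ) := hEW
    exact hHE.trans (by exact_mod_cast h)
  obtain ⟨hs1, hs2, hs3⟩ := hsb y hy1 D p1 hD H hH6 hH3
  have hs4 : C2 * (log (X : ℝ) / log (log (X : ℝ))) ≤ H / log (y : ℝ) := by
    have h1 : C2 * (log (X : ℝ) / log (log (X : ℝ))) ≤ C2 * (log (X : ℝ) / log (y : ℝ)) := by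
      refine mul_le_mul_of_nonneg_left ?_ hC2.le
      exact div_le_div_of_nonneg_left hLX.le hlog0 hlu
    refine h1.trans ?_
    rw [← mul_div_assoc]
    exact div_le_div_of_nonneg_right hH5 hlog0.le
  have hs5 : C1 * ((H : ℝ) / log (y : ℝ)) ≤ c0 * log (X : ℝ) := by
    have h1 : (H : ℝ) / log (y : ℝ) ≤ κ * y := by
      rw [div_le_iff₀ hlog0]
      linarith
    calc C1 * ((H : ℝ) / log (y : ℝ)) ≤ C1 * (κ * y) := mul_le_mul_of_nonneg_left h1 hC1.le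
      _ = (C1 * κ) * y := by ring
      _ ≤ c0 * y := mul_le_mul_of_nonneg_right hκC (by linarith)
      _ ≤ c0 * log (X : ℝ) := mul_le_mul_of_nonneg_left hyL hc0.le
  obtain ⟨a, T, ha1, ha2, hMT, V, hV1, hV2, hV3⟩ :=
    hG2 H 0 (H / log (y : ℝ)) (by omega) hHW hs4 hs5 hs1 hs2 hs3
  exact ⟨D, p1, a, T, hD, ha1, ha2, hMT, lt_of_le_of_lt hHE (hmm y hy3 D p1 hD 1 one_pos le_rfl),
    V, hV1, hV2, hV3⟩

end Pool.Agent.Lib.H77W
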