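import Pool.Agent.Lib.H77W.G1
import Pool.Agent.Lib.H77W.GA
import Pool.Agent.Lib.H77W.GB

/-!
# Chunk G3: both ranges for one `X`
-/

open Finset Real
open Pool.Agent.Lib.H5C
open Pool.Agent.Lib.H77V

namespace Pool.Agent.Lib.H77W

/-- `good_gen`, `all_A`, `all_B`, `Concl.mono`. -/
theorem concl_all (k : ℕ) (hk : 1 ≤ k) (ε : ℝ) (hε : 0 < ε) : ∃ δ κ A C c : ℝ,
    (0 < δ ∧ δ ≤ 1 / 100 ∧ 0 < κ ∧ κ ≤ 1 ∧ 0 < A ∧ 0 < C ∧ 0 < c) ∧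
    ∃ X₀ : ℕ, ∀ X : ℕ, X₀ ≤ X →
      (∀ y : ℕ, y ≤ ⌊δ * log X⌋₊ → log (log X) / 2 ≤ log y → A * (log X / log (log X)) ≤ y →
        Concl k ε c X y (hE κ y)) ∧
      (∀ H : ℕ, C * log X ≤ H →
        (H : ℝ) ≤ κ * ((⌊δ * log X⌋₊ : ℝ) * log (⌊δ * log X⌋₊ : ℝ)) →
        Concl k ε c X ⌊δ * log X⌋₊ H) := by
  obtain ⟨δ, c0, hδ, hδ1, hc0, hG⟩ := good_gen k hk ε hε
  obtain ⟨κA, hA0, hA1, hA⟩ := all_A k ε δ c0 hδ hδ1 hc0 hG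
  obtain ⟨κB, hB0, hB1, hB⟩ := all_B k ε δ c0 hδ hδ1 hc0 hG
  have hκ : 0 < min κA κB := lt_min hA0 hB0
  obtain ⟨A, cA, hA2, hcA, XA, hXA⟩ := hA (min κA κB) hκ (min_le_left _ _)
  obtain ⟨C, cB, hC2, hcB, XB, hXB⟩ := hB (min κA κB) hκ (min_le_right _ _)
  refine ⟨δ, min κA κB, A, C, min cA cB, ⟨hδ, hδ1, hκ, (min_le_left _ _).trans hA1, hA2, hC2,
    lt_min hcA hcB⟩, max XA XB, ?_⟩
  intro X hX
  refine ⟨fun y h1 h2 h3 => ?_, fun H h1 h2 => ?_⟩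
  · exact (hXA X ((le_max_left _ _).trans hX) y h1 h2 h3).mono (min_le_left _ _)
  · exact (hXB X ((le_max_right _ _).trans hX) H h1 h2).mono (min_le_right _ _)

end Pool.Agent.Lib.H77W
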