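import Pool.Agent.Lib.H77W.F2
import Pool.Agent.Lib.H77W.F4
import Pool.Agent.Lib.H77W.G3

/-!
# Chunk F5: gap vectors at all scales
-/

open Finset Real
open Pool.Agent.Lib.H5C
open Pool.Agent.Lib.H56G

namespace Pool.Agent.Lib.H77W

/-- `concl_all` with `min ε 1/2` gives `δ, κ, A, C1, c1`; `choose_y κ δ A`; `concl_count`;
`X = ⌊x/70⌋` is large, `X ≤ x ≤ 100 X + 100`; `C = 2 C1 + 2`. If `κ Y log Y ≤ H` (`Y = ⌊δ log X⌋`):
`y` from `choose_y`, window `hE κ y ≤ H`, `c1 (hE κ y)^k ≥ c1 c'^k H^k`. Otherwise: window `⌊H⌋ ≥ H/2`,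
as `H ≥ 2 log x ≥ 2`; `C1 log X ≤ C1 log x ≤ H/2`. -/
theorem all_scales (k : ℕ) (hk : 1 ≤ k) (ε : ℝ) (hε : 0 < ε) : ∃ c C : ℝ, 0 < c ∧ 0 < C ∧
    ∀ᶠ x : ℝ in Filter.atTop, ∀ H : ℝ, C * log x ≤ H → H ≤ Pool.Agent.Lib.H56G.ff x →
      c * H ^ k ≤ (Set.ncard {h : Fin k → ℕ | ((∑ i, h i : ℕ) : ℝ) ≤ H ∧
        x ^ (1 - ε) ≤ (Set.ncard {n : ℕ | (Nat.nth Nat.Prime (n + k) : ℝ) ≤ x ∧
        ∀ i : Fin k, Nat.nth Nat.Prime (n + i + 1) = Nat.nth Nat.Prime (n + i) + h i} : ℝ)} :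
          ℝ) := by
  obtain ⟨δ, κ, A, C1, c1, ⟨hδ, hδ1, hκ, hκ1, hA, hC1, hc1⟩, X₀, hX⟩ :=
    concl_all k hk (min ε 1 / 2) (by positivity)
  obtain ⟨c', hc', X₁, hy⟩ := choose_y κ δ A hκ hκ1 hδ hδ1 hA
  obtain ⟨x₁, hcount⟩ := concl_count k ε δ hε hδ hδ1
  refine ⟨c1 * min (c' ^ k) ((1 / 2) ^ k), 2 * C1 + 2, by positivity, by positivity, ?_⟩
  filter_upwards [Filter.eventually_ge_atTop x₁,
    Filter.eventually_ge_atTop (70 * ((X₀ : ℝ) + X₁ + 1) + 140)] with x hx1 hx2 H hH1 hH2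
  have hX0r : (0 : ℝ) ≤ X₀ := Nat.cast_nonneg _
  have hX1r : (0 : ℝ) ≤ X₁ := Nat.cast_nonneg _
  have hx0 : 0 < x := by linarith
  have hxX : x / 70 < (⌊x / 70⌋₊ : ℝ) + 1 := Nat.lt_floor_add_one _
  have hXx : (⌊x / 70⌋₊ : ℝ) ≤ x / 70 := Nat.floor_le (by positivity)
  set X := ⌊x / 70⌋₊ with hXd
  have hXbig : (X₀ : ℝ) + X₁ + 1 ≤ X := by linarith
  have hXbig' : X₀ + X₁ + 1 ≤ X := by exact_mod_cast hXbig
  have hXle : (X : ℝ) ≤ x := by linarith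
  have hx100 : x ≤ 100 * X + 100 := by
    have h0 : (0 : ℝ) ≤ X := Nat.cast_nonneg _
    linarith
  have hX1 : (1 : ℝ) ≤ X := by linarith
  have hlog1 : 1 ≤ log x := by
    rw [Real.le_log_iff_exp_le hx0]
    have h3 := Real.exp_one_lt_d9
    linarith
  have hlogX : log (X : ℝ) ≤ log x := Real.log_le_log (by linarith) hXle
  have hlx : 0 ≤ C1 * log x := by positivity
  have hH0 : 2 ≤ H := by nlinarith
  have hHpos : 0 ≤ H := by linarith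
  rcases le_or_gt (κ * ((⌊δ * log X⌋₊ : ℝ) * log (⌊δ * log X⌋₊ : ℝ))) H with hcase | hcase
  · obtain ⟨y, hyY, hly, hAy, hyH, hcy⟩ := hy X (by omega) x hXle hx100 H hcase hH2
    have hC := (hX X (by omega)).1 y hyY hly hAy
    refine le_trans ?_ (hcount x hx1 c1 y hyY (hE κ y) hC H hyH)
    calc c1 * min (c' ^ k) ((1 / 2) ^ k) * H ^ k ≤ c1 * c' ^ k * H ^ k := by
          gcongr
          exact min_le_left _ _
      _ = c1 * (c' * H) ^ k := by rw [mul_pow]; ring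
      _ ≤ c1 * (hE κ y : ℝ) ^ k := by gcongr
  · have hh1 : (⌊H⌋₊ : ℝ) ≤ H := Nat.floor_le hHpos
    have hh2 : H < (⌊H⌋₊ : ℝ) + 1 := Nat.lt_floor_add_one _
    have hh3 : H / 2 ≤ (⌊H⌋₊ : ℝ) := by linarith
    have hC1X : C1 * log (X : ℝ) ≤ (⌊H⌋₊ : ℝ) := by
      have h4 : C1 * log (X : ℝ) ≤ C1 * log x := by gcongr
      have h5 : 2 * (C1 * log x) ≤ H := by nlinarith
      linarith
    have hC := (hX X (by omega)).2 ⌊H⌋₊ hC1X (hh1.trans hcase.le)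
    refine le_trans ?_ (hcount x hx1 c1 ⌊δ * log X⌋₊ le_rfl ⌊H⌋₊ hC H hh1)
    calc c1 * min (c' ^ k) ((1 / 2) ^ k) * H ^ k ≤ c1 * (1 / 2) ^ k * H ^ k := by
          gcongr
          exact min_le_right _ _
      _ = c1 * (H / 2) ^ k := by rw [div_eq_mul_inv, mul_pow]; ring
      _ ≤ c1 * (⌊H⌋₊ : ℝ) ^ k := by gcongr

end Pool.Agent.Lib.H77W
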