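import Pool.Agent.Lib.H5C.FC2

/-!
# Chunk P1: lower bound for one form, all sieving limits
-/

open Finset Real
open Pool.Agent.Lib.H5C
open Pool.Agent.Lib.H56G

namespace Pool.Agent.Lib.H77W

/-- As `H5C.prime_low` (`H5C/FC2.lean`, copy its proof) for every `y ≤ ⌊δ log X⌋` with
`log y ≥ loglog X/2`: `mdata` holds for all `y ≤ log X`; `MM y D p1 ≤ 4^y ≤ 4^⌊δ log X⌋`;
`y ≥ exp (loglog X/2)` is large; `(loglog X)^4 ≤ (loglog X/2)^5 ≤ (log y)^5` as `loglog X ≥ 32`. -/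
theorem prime_lowY : ∃ δ₀ : ℝ, 0 < δ₀ ∧ δ₀ ≤ 1 / 100 ∧ ∀ δ : ℝ, 0 < δ → δ ≤ δ₀ →
    ∃ c c0 : ℝ, 0 < c ∧ 0 < c0 ∧ ∃ X₀ : ℕ, ∀ X : ℕ, X₀ ≤ X →
    ∀ y : ℕ, y ≤ ⌊δ * log X⌋₊ → log (log X) / 2 ≤ log y →
    ∃ (D : Finset ℕ) (p1 : ℕ), OKD y D p1 ∧
    ∀ {ι J : Type} [Fintype ι] [DecidableEq ι] [Fintype J] [DecidableEq J] (s : Sys ι J),
    s.M = MM y D p1 → IsSieve s δ X → (Fintype.card J : ℝ) ≤ c0 * log X →
    (∀ j, Nat.Coprime (s.b j) s.M) → (∀ j, (s.b j : ℝ) ≤ (X : ℝ) ^ (1 / 2 : ℝ)) →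
    ∀ θ : ℝ, 0 ≤ θ → θ ≤ 1 → 1 / log (log X) ≤ (1 - θ) ^ 2 →
    ∀ T : ℕ, 60 * X ≤ s.M * T → s.M * T ≤ 61 * X → ∀ j : J,
      c * (log (log X) / log X * (1 - θ) ^ 2) * T * ZZ s (tb s (zX δ X) θ) ≤
        ∑ t ∈ (Icc 1 T).filter (fun t => (s.b j + s.M * t).Prime),
          (∑ κ, cc s (tb s (zX δ X) θ) (NX δ X) κ * s.U κ t) ^ 2 := by
  obtain ⟨K, hK, X₁, hmd⟩ := mdata
  obtain ⟨X₂, hprog⟩ := prog_ge
  obtain ⟨y₀, htot⟩ := mm_totient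
  refine ⟨min (1 / 100) (1 / (4 * K)), by positivity, min_le_left _ _, fun δ hδ hδ0 => ?_⟩
  have hδ1 : δ ≤ 1 / 100 := hδ0.trans (min_le_left _ _)
  have hδK : 4 * δ * K ≤ 1 := by
    have h := hδ0.trans (min_le_right _ _)
    rw [le_div_iff₀ (by positivity)] at h
    linarith
  obtain ⟨c1, C1, hc1, hC1, X₃, hupp⟩ := upp δ hδ hδ1
  obtain ⟨c2, hc2, X₄, hpar⟩ := par_num δ hδ hδ1
  obtain ⟨X₅, hnum⟩ := fc_num K δ hK hδ hδ1 hδK
  have hN : Filter.Tendsto (fun X : ℕ => (X : ℝ)) Filter.atTop Filter.atTop :=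
    tendsto_natCast_atTop_atTop
  have hL : Filter.Tendsto (fun X : ℕ => log (X : ℝ)) Filter.atTop Filter.atTop :=
    Real.tendsto_log_atTop.comp hN
  have hLL : Filter.Tendsto (fun X : ℕ => log (log (X : ℝ))) Filter.atTop Filter.atTop :=
    Real.tendsto_log_atTop.comp hL
  have hall : ∀ᶠ X : ℕ in Filter.atTop, 100 ≤ log (X : ℝ) ∧
      2 * log ((y₀ : ℝ) + 1) ≤ log (log (X : ℝ)) ∧ 32 ≤ log (log (X : ℝ)) := by
    filter_upwards [hL.eventually_ge_atTop 100,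
      hLL.eventually_ge_atTop (2 * log ((y₀ : ℝ) + 1)), hLL.eventually_ge_atTop 32] with X a b c
    exact ⟨a, b, c⟩
  obtain ⟨X₆, hX₆⟩ := Filter.eventually_atTop.1 hall
  refine ⟨1 / 156160, min c1 c2, by norm_num, lt_min hc1 hc2,
    X₁ + X₂ + X₃ + X₄ + X₅ + X₆ + 1, fun X hX y hyY n9 => ?_⟩
  obtain ⟨n1, n2, n3', n4', n5', n6, n7', -, -, -, -, n12, n13, -, n15, n16⟩ :=
    hnum X (by omega)
  obtain ⟨hL100, hLy, hLL32⟩ := hX₆ X (by omega)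
  have hyY' : (y : ℝ) ≤ (⌊δ * log X⌋₊ : ℝ) := by exact_mod_cast hyY
  have h4Y : (4 : ℝ) ^ y ≤ (4 : ℝ) ^ ⌊δ * log X⌋₊ := pow_le_pow_right₀ (by norm_num) hyY
  have n3 : ((4 : ℝ) ^ y) * ((NX δ X : ℝ) * NX δ X) ≤ (⌊(X : ℝ) ^ (4 * δ)⌋₊ : ℝ) :=
    (mul_le_mul_of_nonneg_right h4Y (by positivity)).trans n3'
  have n4 : (y : ℝ) ≤ log X := hyY'.trans n4'
  have n5 : (y : ℝ) ≤ X / 8 := hyY'.trans n5'
  have n7 : ((4 : ℝ) ^ y) * 4 ≤ (X : ℝ) ^ (1 / 4 : ℝ) :=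
    (mul_le_mul_of_nonneg_right h4Y (by norm_num)).trans n7'
  have n11 : (log (log X)) ^ 4 ≤ (log (y : ℝ)) ^ 5 := by
    have h1 : (log (log X) / 2) ^ 5 ≤ (log (y : ℝ)) ^ 5 :=
      pow_le_pow_left₀ (by linarith) n9 5
    refine le_trans ?_ h1
    have h2 : 0 ≤ (log (log X)) ^ 4 := by positivity
    have h3 : (log (log (X : ℝ)) / 2) ^ 5 = (log (log X)) ^ 4 * (log (log X) / 32) := by ring
    rw [h3]
    exact le_mul_of_one_le_right h2 (by linarith)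
  obtain ⟨D, p1, hp1, hDp, hDc, hMD⟩ := hmd X (by omega) ⌊(X : ℝ) ^ (4 * δ)⌋₊ n1 y n4
  have hOK : OKD y D p1 := ⟨hp1, hDp, hDc.trans n11⟩
  refine ⟨D, p1, hOK, ?_⟩
  intro ι J _ _ _ _ s hM hsv hJ hcop hb θ hθ0 hθ1 hθ T hT1 hT2 j
  have hX1 : 1 ≤ X := by omega
  have hXpos : (0 : ℝ) < X := by exact_mod_cast hX1
  have hLpos : 0 < log (X : ℝ) := by linarith
  have hy₀ : y₀ ≤ y := by
    have h0 : (0 : ℝ) < y := by
      by_contra hcon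
      have h1 : (y : ℝ) = 0 := le_antisymm (not_lt.1 hcon) (Nat.cast_nonneg y)
      rw [h1, Real.log_zero] at n9
      linarith
    have h1 : (y₀ : ℝ) ≤ y := by
      have h2 : log ((y₀ : ℝ) + 1) ≤ log (y : ℝ) := by linarith
      have h3 := (Real.log_le_log_iff (by positivity) h0).1 h2
      linarith
    exact_mod_cast h1
  obtain ⟨hMpos, hφ⟩ := htot y hy₀ D p1 hOK
  rw [← hM] at hMpos hφ
  have : NeZero s.M := ⟨hMpos.ne'⟩
  have hMle : (s.M : ℝ) ≤ (4 : ℝ) ^ y := by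
    rw [hM]
    exact_mod_cast mm_le y D p1
  have hJ1 : (Fintype.card J : ℝ) ≤ c1 * log X :=
    hJ.trans (mul_le_mul_of_nonneg_right (min_le_left _ _) hLpos.le)
  have hJ2 : (Fintype.card J : ℝ) ≤ c2 * log X :=
    hJ.trans (mul_le_mul_of_nonneg_right (min_le_right _ _) hLpos.le)
  have hXX : (X : ℝ) ^ (1 / 2 : ℝ) ≤ X := by
    calc (X : ℝ) ^ (1 / 2 : ℝ) ≤ (X : ℝ) ^ (1 : ℝ) :=
          Real.rpow_le_rpow_of_exponent_le (by exact_mod_cast hX1) (by norm_num)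
      _ = X := Real.rpow_one _
  obtain ⟨hSS, hSS2, -, -, -, -, hcoef⟩ := hupp X (by omega) s hsv hJ1 θ hθ0 hθ1 hθ X hXX
  obtain ⟨p1', p2', -, -, -, -, -, -, -, -, -, -, p13, p14, -, -, -⟩ :=
    hpar X (by omega) (Fintype.card J) hJ2 _ le_rfl
  obtain ⟨hsv1, hsv2, hsv3⟩ := hsv
  have hpr8 : ∀ i, (s.pr i : ℝ) ≤ X / 8 := fun i => by
    refine le_trans ?_ n6
    exact_mod_cast hsv2 i
  have hN1 : (1 : ℝ) ≤ NX δ X := by exact_mod_cast n12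
  have hccne : ∀ κ, cc s (tb s (zX δ X) θ) (NX δ X) κ ≠ 0 → s.r κ ≤ (NX δ X : ℝ) := by
    intro κ hκ
    by_contra hcon
    apply hκ
    unfold cc
    rw [if_neg hcon]
  have hMQ : (s.M : ℝ) * ((NX δ X : ℝ) * NX δ X) ≤ (⌊(X : ℝ) ^ (4 * δ)⌋₊ : ℝ) := by
    refine le_trans ?_ n3
    exact mul_le_mul_of_nonneg_right hMle (by positivity)
  have hMdata : MData ⌊(X : ℝ) ^ (4 * δ)⌋₊ X s.M := by rw [hM]; exact hMD
  have hPG := hprog X (by omega) ⌊(X : ℝ) ^ (4 * δ)⌋₊ n2 s hMdata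
    (fun p hp hpM => by
      rw [hM] at hpM
      have h1 := mm_prime y D p1 p hp hpM
      refine le_trans ?_ n5
      exact_mod_cast h1) hpr8 (WX X) (zX δ X) θ 40000 (NX δ X) p1' hsv1 p2' hN1 hMQ hθ0 hθ1 hSS
    (by norm_num) hSS2 (by exact_mod_cast p14) p13 n13 j (hcop j)
    (cp j (cc s (tb s (zX δ X) θ) (NX δ X)))
    (fun κ hκ => maj1_r_le_of_cp_ne s _ _ j hccne κ hκ)
    (fun κ hκ => (cp_bounds s (zX δ X) θ hθ0 hθ1 hSS (NX δ X) j κ hκ).2)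
  have hbX : ((s.b j + s.M : ℕ) : ℝ) ≤ X / 8 := by
    push_cast
    have h1 := hb j
    have hXe : ∀ a : ℝ, (X : ℝ) ^ a = exp (log X * a) := fun a => Real.rpow_def_of_pos hXpos a
    have h2 : (s.M : ℝ) * 4 ≤ (X : ℝ) ^ (1 / 4 : ℝ) := by
      refine le_trans ?_ n7
      exact mul_le_mul_of_nonneg_right hMle (by norm_num)
    have h3 : (X : ℝ) ^ (1 / 4 : ℝ) ≤ (X : ℝ) ^ (1 / 2 : ℝ) :=
      Real.rpow_le_rpow_of_exponent_le (by exact_mod_cast hX1) (by norm_num)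
    have h4 : 16 * (X : ℝ) ^ (1 / 2 : ℝ) ≤ X := by
      have h5 : (X : ℝ) = exp (log X * (1 / 2)) * exp (log X * (1 / 2)) := by
        rw [← Real.exp_add]
        conv_lhs => rw [← Real.exp_log hXpos]
        congr 1
        ring
      have h6 : 16 ≤ exp (log X * (1 / 2)) := by
        have := Real.add_one_le_exp (log (X : ℝ) * (1 / 2))
        linarith
      rw [hXe]
      calc 16 * exp (log X * (1 / 2)) ≤ exp (log X * (1 / 2)) * exp (log X * (1 / 2)) :=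
            mul_le_mul_of_nonneg_right h6 (exp_pos _).le
        _ = X := h5.symm
    have h7 : 0 ≤ (s.M : ℝ) := Nat.cast_nonneg _
    linarith
  have hCG := count_ge s X T hX1 hpr8 j hbX hT1 (cc s (tb s (zX δ X) θ) (NX δ X))
  have h60 : 0 < log ((60 * X : ℕ) : ℝ) := by
    refine Real.log_pos ?_
    have : 1 < 60 * X := by omega
    exact_mod_cast this
  have hZnn : 0 ≤ ZZ s (tb s (zX δ X) θ) := by
    unfold ZZ wt vv
    refine Finset.sum_nonneg fun κ _ => Finset.prod_nonneg fun j _ => ?_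
    refine mul_nonneg (sq_nonneg _) ?_
    unfold Sys.phi
    refine Finset.prod_nonneg fun i _ => ?_
    have h1 : (1 : ℝ) ≤ s.pr i := by exact_mod_cast (s.prime i).one_lt.le
    linarith
  have hφpos : 0 < s.M.totient := Nat.totient_pos.2 hMpos
  refine fc2_num X T s.M s.M.totient y θ (ZZ s (tb s (zX δ X) θ))
    (∑ κ ∈ noJ j, (cp j (cc s (tb s (zX δ X) θ) (NX δ X)) κ) ^ 2 * s.ph κ) _ (by linarith)
    ?_ hMpos hφpos hφ n9 hT2 hZnn hθ n16 n15 h60 (hcoef j) ?_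
  · have : 1 < log (X : ℝ) := by linarith
    exact Real.log_pos this
  · refine le_trans ?_ hCG
    exact mul_le_mul_of_nonneg_left hPG (by positivity)

end Pool.Agent.Lib.H77W
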