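import Pool.Agent.Lib.H92V.V8
import Pool.Agent.Lib.H77V.KU2
import Pool.Agent.Lib.H77V.A4
import Pool.Agent.Lib.H77V.A5
import Pool.Agent.Lib.H77W.Defs
import Pool.Agent.Lib.H77W.P1

/-!
# Chunk G1: many vectors for one `X`, abstract window
-/

open Finset Real
open Pool.Agent.Lib.H5C
open Pool.Agent.Lib.H56G
open Pool.Agent.Lib.H77V

namespace Pool.Agent.Lib.H77W

/-- The arithmetic of the constants: `u = C3 (k + 1)/s`. -/
theorem g1_const (k : ℕ) (c1 C1 cL C3 P C4 s r e H : ℝ) (hc1 : 0 < c1) (hC1 : 0 < C1)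
    (hcL : 0 < cL) (hC3 : 0 < C3) (hC3' : 4 ≤ c1 * cL * C3) (hP : P = C1 * C3)
    (hC4 : C4 = C1 * (C3 * (k + 1)) ^ (2 * (k + 1))) (hs : 0 < s)
    (hr1 : c1 * s ≤ r) (hr2 : r ≤ C1 * s) (he0 : 0 ≤ e) (hH : 0 ≤ H)
    (he : e * H ^ k ≤ C1 * s ^ (2 * (k + 1))) :
    4 * ((k : ℝ) + 1) ≤ r * (cL * (C3 * (k + 1) / s)) ∧
    r * (C3 * (k + 1) / s) ≤ P * (k + 1) ∧
    e * H ^ k * (C3 * (k + 1) / s) ^ (2 * (k + 1)) ≤ C4 := by
  have hk0 : (0 : ℝ) ≤ k := Nat.cast_nonneg k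
  have hk1 : (0 : ℝ) < k + 1 := by linarith
  refine ⟨?_, ?_, ?_⟩
  · have h2 : c1 * s * (cL * (C3 * (k + 1) / s)) ≤ r * (cL * (C3 * (k + 1) / s)) :=
      mul_le_mul_of_nonneg_right hr1 (by positivity)
    have h3 : c1 * s * (cL * (C3 * (k + 1) / s)) = c1 * cL * C3 * (k + 1) := by
      field_simp
    have h4 : 4 * ((k : ℝ) + 1) ≤ c1 * cL * C3 * (k + 1) :=
      mul_le_mul_of_nonneg_right hC3' (by positivity)
    linarith
  · have h2 : r * (C3 * (k + 1) / s) ≤ C1 * s * (C3 * (k + 1) / s) :=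
      mul_le_mul_of_nonneg_right hr2 (by positivity)
    have h3 : C1 * s * (C3 * (k + 1) / s) = P * (k + 1) := by
      rw [hP]
      field_simp
    linarith
  · calc e * H ^ k * (C3 * (k + 1) / s) ^ (2 * (k + 1))
        ≤ C1 * s ^ (2 * (k + 1)) * (C3 * (k + 1) / s) ^ (2 * (k + 1)) := by gcongr
      _ = C1 * (s * (C3 * (k + 1) / s)) ^ (2 * (k + 1)) := by
        rw [mul_pow s (C3 * (k + 1) / s) (2 * (k + 1)), mul_assoc]
      _ = C4 := by
        rw [hC4]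
        congr 2
        field_simp

open Classical in
/-- `GG` (`Defs.lean`) holds. As `H77V.good_vk` (`H77V/A6.lean`, copy its proof), with a general window
`[1, H]`, sieving limit `y`, and number `s` of survivors (up to constants), `a ≡ a₀` modulo `M`
(`fd1_shift`). `δ` = minimum of the `δ₀` of `prime_lowY`, `ε/(k + 4)`, `1/(100 (k + 1))`; `c0` = minimum
of the `c0` of `prime_lowY`, `upp`, `uppK`, `par_num`. `C3 = 1 + 4/(c1 cL) + c0/C1`,
`q = (1 - θ)² = C3 (k + 1) log X/(s loglog X)`, so that `u = loglog X/log X · q = C3 (k + 1)/s`;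
`q ≤ 1` with `C2 = C3 (k + 1)`, `q ≥ 1/loglog X` since `s ≤ c0 log X/C1 ≤ C3 (k + 1) log X`.
`g1_const` in place of `a5_const`; `H ≤ WX X ≤ NX δ X`; `MM y D p1 ≤ 4^y ≤ 4^⌊δ log X⌋`. -/
theorem good_gen (k : ℕ) (hk : 1 ≤ k) (ε : ℝ) (hε : 0 < ε) : ∃ δ c0 : ℝ, 0 < δ ∧ δ ≤ 1 / 100 ∧
    0 < c0 ∧ GG k ε δ c0 := by
  unfold GG
  obtain ⟨δ₀, hδ₀, hδ₀1, hpl0⟩ := prime_lowY
  have hk1 : (1 : ℝ) ≤ (k : ℝ) + 1 := by
    have := Nat.cast_nonneg (α := ℝ) k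
    linarith
  have hk4 : (0 : ℝ) < (k : ℝ) + 4 := by
    have := Nat.cast_nonneg (α := ℝ) k
    linarith
  obtain ⟨δ, hδ, hδδ₀, hδε, hδk⟩ : ∃ δ : ℝ, 0 < δ ∧ δ ≤ δ₀ ∧ ((k : ℝ) + 4) * δ ≤ ε ∧
      δ * ((k : ℝ) + 1) ≤ 1 / 100 := by
    refine ⟨min δ₀ (min (ε / ((k : ℝ) + 4)) (1 / 100 / ((k : ℝ) + 1))),
      lt_min hδ₀ (lt_min (by positivity) (by positivity)), min_le_left _ _, ?_, ?_⟩
    · have h1 : min δ₀ (min (ε / ((k : ℝ) + 4)) (1 / 100 / ((k : ℝ) + 1))) ≤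
          ε / ((k : ℝ) + 4) := (min_le_right _ _).trans (min_le_left _ _)
      rw [le_div_iff₀ hk4] at h1
      linarith
    · have h1 : min δ₀ (min (ε / ((k : ℝ) + 4)) (1 / 100 / ((k : ℝ) + 1))) ≤
          1 / 100 / ((k : ℝ) + 1) := (min_le_right _ _).trans (min_le_right _ _)
      rw [le_div_iff₀ (by linarith)] at h1
      linarith
  have hδ1 : δ ≤ 1 / 100 := hδδ₀.trans hδ₀1
  obtain ⟨cL, c0L, hcL, hc0L, XL, hpl⟩ := hpl0 δ hδ hδδ₀
  obtain ⟨c0u, Cu, hc0u, hCu, XU, hupp⟩ := upp δ hδ hδ1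
  obtain ⟨c0p, hc0p, XP, hpar⟩ := par_num δ hδ hδ1
  obtain ⟨c0K, Ck, hc0K, hCk, XK, huppK⟩ := uppK (k + 1) (by omega) δ hδ (by
    push_cast
    exact hδk)
  obtain ⟨c0, hc0, hκL, hκu, hκp, hκK⟩ : ∃ c0 : ℝ, 0 < c0 ∧ c0 ≤ c0L ∧ c0 ≤ c0u ∧ c0 ≤ c0p ∧
      c0 ≤ c0K :=
    ⟨min (min c0L c0u) (min c0p c0K), lt_min (lt_min hc0L hc0u) (lt_min hc0p hc0K),
      (min_le_left _ _).trans (min_le_left _ _), (min_le_left _ _).trans (min_le_right _ _),
      (min_le_right _ _).trans (min_le_left _ _), (min_le_right _ _).trans (min_le_right _ _)⟩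
  refine ⟨δ, c0, hδ, hδ1, hc0, fun c1 C1 hc1 hC1 => ?_⟩
  obtain ⟨C3, hC31, hC3', hC3c⟩ : ∃ C3 : ℝ, 1 ≤ C3 ∧ 4 ≤ c1 * cL * C3 ∧ c0 ≤ C1 * C3 := by
    have e1 : 0 ≤ 4 / (c1 * cL) := by positivity
    have e2 : 0 ≤ c0 / C1 := by positivity
    refine ⟨1 + 4 / (c1 * cL) + c0 / C1, by linarith, ?_, ?_⟩
    · have h1 : c1 * cL * (1 + 4 / (c1 * cL) + c0 / C1) = c1 * cL + 4 + c1 * cL * (c0 / C1) := by
        field_simp
      have h2 : 0 ≤ c1 * cL := by positivity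
      have h3 : 0 ≤ c1 * cL * (c0 / C1) := by positivity
      linarith
    · have h1 : C1 * (1 + 4 / (c1 * cL) + c0 / C1) = C1 * (1 + 4 / (c1 * cL)) + c0 := by
        field_simp
      have h2 : 0 ≤ C1 * (1 + 4 / (c1 * cL)) := by positivity
      linarith
  have hC3 : 0 < C3 := by linarith
  obtain ⟨P, hP⟩ : ∃ P : ℝ, P = C1 * C3 := ⟨_, rfl⟩
  have hP0 : 0 ≤ P := by rw [hP]; positivity
  obtain ⟨Bc, hBc, hBP⟩ : ∃ Bc : ℝ, 0 < Bc ∧ 4 * Cu * (P + P ^ 2) ≤ Bc :=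
    ⟨4 * Cu * (P + P ^ 2) + 1, by positivity, by linarith⟩
  obtain ⟨C4, hC4⟩ : ∃ C4 : ℝ, C4 = C1 * (C3 * ((k : ℝ) + 1)) ^ (2 * (k + 1)) :=
    ⟨_, rfl⟩
  have hC40 : 0 < C4 := by rw [hC4]; positivity
  obtain ⟨X1, hnum⟩ := fc_num 1 δ le_rfl hδ hδ1 (by linarith)
  obtain ⟨X2, hfin⟩ := a5_fin k δ ε Bc hδ hδε hBc
  obtain ⟨X3, hev⟩ := fd1_ev δ (C3 * ((k : ℝ) + 1)) hδ 0
  refine ⟨C3 * ((k : ℝ) + 1), 1 / ((16 * Bc * Ck) ^ 2 * C4), by positivity, by positivity,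
    XL + XU + XP + XK + X1 + X2 + X3, fun X hX y hyY hylog => ?_⟩
  obtain ⟨-, -, -, n4', n5', n6, n7', n8, n9, n10, n11, n12, n13, n14, n15, n16⟩ :=
    hnum X (by omega)
  obtain ⟨v1, v2, v3, v4, v5, v6⟩ := hev X (by omega)
  have hfinX := hfin X (by omega)
  obtain ⟨D, p1, hOK, hplX⟩ := hpl X (by omega) y hyY hylog
  refine ⟨D, p1, hOK, fun H a₀ σ hH1 hEW hσ1 hσ2 ha1 ha2 ha3 => ?_⟩
  have hyY' : (y : ℝ) ≤ (⌊δ * log X⌋₊ : ℝ) := by exact_mod_cast hyY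
  have h4Y : (4 : ℝ) ^ y ≤ (4 : ℝ) ^ ⌊δ * log X⌋₊ := pow_le_pow_right₀ (by norm_num) hyY
  have n4 : (y : ℝ) ≤ log X := hyY'.trans n4'
  have n7 : ((4 : ℝ) ^ y) * 4 ≤ (X : ℝ) ^ (1 / 4 : ℝ) :=
    (mul_le_mul_of_nonneg_right h4Y (by norm_num)).trans n7'
  have hLpos : 0 < log (X : ℝ) := by linarith
  have hlpos : 0 < log (log (X : ℝ)) := by linarith
  have hXpos : (0 : ℝ) < X := by linarith
  have hσ0 : 0 < σ := lt_of_lt_of_le (by positivity) hσ1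
  -- `M` and `a`
  have hMpos : 0 < MM y D p1 := ER6b_pos y D p1
  have hM4 : (MM y D p1 : ℝ) ≤ (4 : ℝ) ^ y := by exact_mod_cast mm_le y D p1
  have hMprime : ∀ p, p.Prime → WX X < p → ¬ p ∣ MM y D p1 := by
    intro p hp h1 h2
    have h3 := mm_prime y D p1 p hp h2
    have h4 : (y : ℝ) ≤ WX X := by
      refine n4.trans (le_trans ?_ n13)
      exact le_self_pow₀ (by linarith) (by norm_num)
    have h5 : y ≤ WX X := by exact_mod_cast h4
    omega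
  set M := MM y D p1 with hM
  obtain ⟨a, haM, haN, haN2⟩ := fd1_shift a₀ M (NX δ X) hMpos
  have hcongr : SH H M a₀ = SH H M a := by
    unfold SH
    refine Finset.filter_congr fun x _ => ?_
    have h1 : (a + x) ≡ (a₀ + x) [MOD M] := haM.add_right x
    unfold Nat.Coprime
    rw [h1.gcd_eq]
  rw [hcongr] at ha1 ha2 ha3
  -- sizes
  have hcardL : ((SH H M a).card : ℝ) ≤ c0 * log X := ha2.trans hσ2
  obtain ⟨w1, -, w3, -⟩ := hpar X (by omega) (SH H M a).card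
    (hcardL.trans (mul_le_mul_of_nonneg_right hκp hLpos.le)) _ le_rfl
  have hNr : (NX δ X : ℝ) ≤ (X : ℝ) ^ (1 / 4 : ℝ) := by
    refine (Nat.floor_le (by positivity)).trans ?_
    exact rpow_le_rpow_of_exponent_le v6 (by linarith)
  have hE4 : (X : ℝ) ^ (1 / 4 : ℝ) * (X : ℝ) ^ (1 / 4 : ℝ) = (X : ℝ) ^ (1 / 2 : ℝ) := by
    rw [← rpow_add hXpos]
    norm_num
  have hEE : 4 * (X : ℝ) ^ (1 / 4 : ℝ) ≤ (X : ℝ) ^ (1 / 2 : ℝ) := by
    rw [← hE4]
    exact mul_le_mul_of_nonneg_right v5 (by positivity)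
  have hXX : (X : ℝ) ^ (1 / 2 : ℝ) ≤ X := by
    calc (X : ℝ) ^ (1 / 2 : ℝ) ≤ (X : ℝ) ^ (1 : ℝ) := rpow_le_rpow_of_exponent_le v6 (by norm_num)
      _ = X := rpow_one _
  have hMr : 4 * (M : ℝ) ≤ (X : ℝ) ^ (1 / 4 : ℝ) := by
    refine le_trans ?_ n7
    linarith
  have haX : ((a + WX X : ℕ) : ℝ) ≤ (X : ℝ) ^ (1 / 2 : ℝ) := by
    have h1 : a + WX X ≤ 2 * NX δ X + 2 * M := by omega
    have h2 : ((a + WX X : ℕ) : ℝ) ≤ 2 * NX δ X + 2 * M := by exact_mod_cast h1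
    refine h2.trans (le_trans ?_ hEE)
    have h3 : 0 ≤ (X : ℝ) ^ (1 / 4 : ℝ) := by positivity
    linarith
  have hWya : WX X < a := lt_of_le_of_lt w3 haN
  have hyW : (y : ℝ) ≤ WX X := by
    refine n4.trans (le_trans ?_ n13)
    exact le_self_pow₀ (by linarith) (by norm_num)
  -- `T`
  set T := 60 * X / M + 1 with hT
  have hXM : M ≤ X := by
    have h1 : (M : ℝ) ≤ X := by
      have h3 : (X : ℝ) ^ (1 / 4 : ℝ) ≤ (X : ℝ) ^ (1 / 2 : ℝ) := by
        have : 0 ≤ (X : ℝ) ^ (1 / 4 : ℝ) := by positivity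
        linarith
      have h4 : (0 : ℝ) ≤ M := Nat.cast_nonneg M
      linarith
    exact_mod_cast h1
  have hT1 : 60 * X ≤ M * T := (Nat.lt_mul_div_succ (60 * X) hMpos).le
  have hT2 : M * T ≤ 61 * X := by
    have h1 := Nat.mul_div_le (60 * X) M
    have h3 : M * T = M * (60 * X / M) + M := by rw [hT]; ring
    omega
  refine ⟨a, T, ?_, ?_, hT2, ?_⟩
  · have h5 : y ≤ WX X := by exact_mod_cast hyW
    omega
  · refine le_trans ?_ (haX.trans hXX)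
    push_cast
    have : (0 : ℝ) ≤ WX X := Nat.cast_nonneg _
    linarith
  -- the system
  set R := SH H M a with hR
  have hRmem : ∀ h ∈ R, 1 ≤ h ∧ h ≤ H ∧ Nat.Coprime (a + h) M := by
    intro h hh
    rw [hR] at hh
    unfold SH at hh
    rw [Finset.mem_filter, Finset.mem_Icc] at hh
    exact ⟨hh.1.1, hh.1.2, hh.2⟩
  have hBW : ∀ b ∈ R.image (fun h => a + h), ∀ b' ∈ R.image (fun h => a + h), b ≤ b' + WX X := by
    intro b hb b' hb'
    rw [Finset.mem_image] at hb hb'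
    obtain ⟨h, hh, rfl⟩ := hb
    obtain ⟨h', hh', rfl⟩ := hb'
    have := (hRmem h hh).2.1
    omega
  set s := mkSys (WX X) (NX δ X) M (R.image (fun h => a + h)) hMprime hBW with hs
  have hsv : IsSieve s δ X := ⟨fun i => (mem_Ioc.mp (mem_filter.mp i.2).1).1,
    fun i => (mem_Ioc.mp (mem_filter.mp i.2).1).2,
    fun p hp h1 h2 => ⟨⟨p, mem_filter.mpr ⟨mem_Ioc.mpr ⟨h1, h2⟩, hp⟩⟩, rfl⟩⟩
  have hcard : Fintype.card {b // b ∈ R.image (fun h => a + h)} = R.card := by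
    rw [Fintype.card_coe, Finset.card_image_of_injective]
    intro x x' hxx
    simpa using hxx
  -- `θ`
  have hCk1 : 1 ≤ C3 * ((k : ℝ) + 1) := by
    calc (1 : ℝ) = 1 * 1 := by ring
      _ ≤ C3 * ((k : ℝ) + 1) := mul_le_mul hC31 hk1 zero_le_one hC3.le
  set q : ℝ := C3 * ((k : ℝ) + 1) * log X / (σ * log (log X)) with hq
  have hq0 : 0 ≤ q := by positivity
  have hq1 : q ≤ 1 := by
    rw [hq, div_le_one (by positivity)]
    have h1 : C3 * ((k : ℝ) + 1) * (log X / log (log X)) * log (log X) ≤ σ * log (log X) :=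
      mul_le_mul_of_nonneg_right hσ1 hlpos.le
    have h2 : C3 * ((k : ℝ) + 1) * (log X / log (log X)) * log (log X) =
        C3 * ((k : ℝ) + 1) * log X := by
      field_simp
    linarith
  have hsq1 : √q ≤ 1 := (Real.sqrt_le_sqrt hq1).trans (le_of_eq Real.sqrt_one)
  have hθq : (1 - (1 - √q)) ^ 2 = q := by
    rw [sub_sub_cancel, Real.sq_sqrt hq0]
  have hθ0 : 0 ≤ 1 - √q := by linarith
  have hθ1 : 1 - √q ≤ 1 := by linarith [Real.sqrt_nonneg q]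
  have hθl : 1 / log (log (X : ℝ)) ≤ (1 - (1 - √q)) ^ 2 := by
    rw [hθq, hq, div_le_div_iff₀ hlpos (by positivity)]
    have h1 : C1 * σ ≤ C1 * (C3 * ((k : ℝ) + 1) * log X) := by
      refine hσ2.trans ?_
      calc c0 * log X ≤ C1 * C3 * log X := mul_le_mul_of_nonneg_right hC3c hLpos.le
        _ = C1 * C3 * log X * 1 := by ring
        _ ≤ C1 * C3 * log X * ((k : ℝ) + 1) := mul_le_mul_of_nonneg_left hk1 (by positivity)
        _ = C1 * (C3 * ((k : ℝ) + 1) * log X) := by ring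
    have h2 : σ ≤ C3 * ((k : ℝ) + 1) * log X := le_of_mul_le_mul_left h1 hC1
    calc 1 * (σ * log (log (X : ℝ))) = σ * log (log (X : ℝ)) := by ring
      _ ≤ C3 * ((k : ℝ) + 1) * log X * log (log (X : ℝ)) :=
        mul_le_mul_of_nonneg_right h2 hlpos.le
  have hTY : (X : ℝ) ^ (1 / 2 : ℝ) ≤ T := by
    have h1 : (60 : ℝ) * X ≤ M * T := by exact_mod_cast hT1
    have h2 : (M : ℝ) * T ≤ (X : ℝ) ^ (1 / 4 : ℝ) * T := by
      refine mul_le_mul_of_nonneg_right ?_ (Nat.cast_nonneg _)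
      have : (0 : ℝ) ≤ M := Nat.cast_nonneg M
      linarith
    have h3 : (X : ℝ) ^ (1 / 4 : ℝ) * (X : ℝ) ^ (1 / 2 : ℝ) ≤ (X : ℝ) ^ (1 / 4 : ℝ) * T := by
      refine le_trans ?_ h2
      rw [← rpow_add hXpos]
      calc (X : ℝ) ^ (1 / 4 + 1 / 2 : ℝ) ≤ (X : ℝ) ^ (1 : ℝ) :=
            rpow_le_rpow_of_exponent_le v6 (by norm_num)
        _ ≤ 60 * X := by rw [rpow_one]; linarith
        _ ≤ M * T := h1
    exact le_of_mul_le_mul_left h3 (by positivity)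
  have hJu : (Fintype.card {b // b ∈ R.image (fun h => a + h)} : ℝ) ≤ c0u * log X := by
    rw [hcard]
    exact hcardL.trans (mul_le_mul_of_nonneg_right hκu hLpos.le)
  have hJL : (Fintype.card {b // b ∈ R.image (fun h => a + h)} : ℝ) ≤ c0L * log X := by
    rw [hcard]
    exact hcardL.trans (mul_le_mul_of_nonneg_right hκL hLpos.le)
  obtain ⟨hSpos, -, u1, u2, u3, u4, -⟩ :=
    hupp X (by omega) s hsv hJu (1 - √q) hθ0 hθ1 hθl T hTY
  have hbmem : ∀ j : {b // b ∈ R.image (fun h => a + h)}, ∃ h ∈ R, j.1 = a + h := by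
    intro j
    obtain ⟨h, hh, he⟩ := Finset.mem_image.mp j.2
    exact ⟨h, hh, he.symm⟩
  have hl1 := hplX s rfl hsv hJL (fun j => by
      obtain ⟨h, hh, he⟩ := hbmem j
      have h2 : s.b j = a + h := he
      rw [h2]
      exact (hRmem h hh).2.2) (fun j => by
      obtain ⟨h, hh, he⟩ := hbmem j
      have h2 : s.b j = a + h := he
      rw [h2]
      refine le_trans ?_ haX
      have h3 : a + h ≤ a + WX X := by
        have := (hRmem h hh).2.1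
        omega
      exact_mod_cast h3) (1 - √q) hθ0 hθ1 hθl T hT1 hT2
  rw [hθq] at u3 u4 hl1
  -- the numbers
  have hu : log (log (X : ℝ)) / log X * q = C3 * ((k : ℝ) + 1) / σ := by
    rw [hq]
    field_simp
  rw [hu] at u3 u4 hl1
  obtain ⟨r1, r2, r3⟩ := g1_const k c1 C1 cL C3 P C4 σ R.card
    ((R.card : ℝ) ^ (k + 1) + 2 * eK (k + 1) R H) H hc1 hC1 hcL hC3 hC3' hP
    hC4 hσ0 ha1 ha2 (by positivity) (Nat.cast_nonneg _) ha3
  -- no sieve prime divides a prime of the form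
  have hnd : ∀ h ∈ R, ∀ t, (a + h + M * t).Prime → ∀ i, ¬ s.pr i ∣ a + h + M * t := by
    intro h hh t hp i hi
    have h1 : s.pr i = a + h + M * t := (Nat.prime_dvd_prime_iff_eq (s.prime i) hp).1 hi
    have h2 : s.pr i ≤ NX δ X := (mem_Ioc.mp (mem_filter.mp i.2).1).2
    have h3 := (hRmem h hh).1
    omega
  set Z := ZZ s (tb s (zX δ X) (1 - √q)) with hZ
  have hZ1 : 1 ≤ Z := one_le_ZZ s _
  set g : ℕ → ℝ := fun t =>
    (∑ κ', cc s (tb s (zX δ X) (1 - √q)) (NX δ X) κ' * s.U κ' t) ^ 2 with hg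
  have hg0 : ∀ t, 0 ≤ g t := fun t => sq_nonneg _
  have hN1 : (1 : ℝ) ≤ NX δ X := by exact_mod_cast n12
  have hgE : ∀ t, g t ≤ 9 * (NX δ X : ℝ) ^ 6 := by
    intro t
    refine L_sq_le s (WX X) (by omega) hsv.1 ?_ (zX δ X) (1 - √q) (NX δ X) hθ0 hθ1 hSpos hN1 t
    rw [hcard]
    obtain ⟨-, w2, -⟩ := hpar X (by omega) R.card
      (hcardL.trans (mul_le_mul_of_nonneg_right hκp hLpos.le)) _ le_rfl
    exact w2
  have hsubset : ∀ h ∈ R, (Icc 1 T).filter (fun t => (a + h + M * t).Prime) ⊆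
      (Icc 1 T).filter (fun t => ∀ i, ¬ s.pr i ∣ a + h + s.M * t) := by
    intro h hh t ht
    rw [Finset.mem_filter] at ht ⊢
    exact ⟨ht.1, hnd h hh t ht.2⟩
  have hmemB : ∀ h ∈ R, a + h ∈ R.image (fun h => a + h) := fun h hh =>
    Finset.mem_image_of_mem _ hh
  have hHpos : 0 < H := hH1
  have hTpos : (0 : ℝ) < T := lt_of_lt_of_le (by positivity) hTY
  have hJK : (Fintype.card {b // b ∈ R.image (fun h => a + h)} : ℝ) ≤ c0K * log X := by
    rw [hcard]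
    exact hcardL.trans (mul_le_mul_of_nonneg_right hκK hLpos.le)
  have hKK : ∀ A : Finset ℕ, A ⊆ R → A.card = k + 1 → ∑ t ∈ (Icc 1 T).filter (fun t =>
      ∀ h ∈ A, (a + h + M * t).Prime), g t ≤
      Ck * (C3 * ((k : ℝ) + 1) / σ) ^ (k + 1) * (T * Z) := by
    intro A hAR hAc
    have hAi : (A.image (fun h => a + h)).card = k + 1 := by
      rw [Finset.card_image_of_injective, hAc]
      intro x x' hxx
      simpa using hxx
    have hAB : A.image (fun h => a + h) ⊆ R.image (fun h => a + h) := Finset.image_subset_image hAR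
    have hA' : (Finset.subtype (fun b => b ∈ R.image (fun h => a + h))
        (A.image (fun h => a + h))).card = k + 1 := by
      rw [Finset.card_subtype, Finset.filter_true_of_mem (fun b hb => hAB hb), hAi]
    have h1 := huppK X (by omega) s hsv hJK (1 - √q) hθ0 hθ1 hθl T hTY
      (Finset.subtype (fun b => b ∈ R.image (fun h => a + h)) (A.image (fun h => a + h))) hA'
    rw [hθq, hu] at h1
    refine le_trans ?_ (h1.trans (le_of_eq ?_))
    · refine Finset.sum_le_sum_of_subset_of_nonneg ?_ fun t _ _ => hg0 t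
      intro t ht
      rw [Finset.mem_filter] at ht ⊢
      refine ⟨ht.1, fun j hj => ?_⟩
      rw [Finset.mem_subtype, Finset.mem_image] at hj
      obtain ⟨h, hh, he⟩ := hj
      have h2 := hnd h (hAR hh) t (ht.2 h hh)
      rw [he] at h2
      exact h2
    · ring
  obtain ⟨S, hS1, hS2, hS3⟩ := a4 k R a M T H g hg0 (fun h hh => ⟨(hRmem h hh).1,
    (hRmem h hh).2.1⟩) hHpos (T * Z)
    (9 * (NX δ X : ℝ) ^ 6) cL Cu Ck (C3 * ((k : ℝ) + 1) / σ) P Bc C4 (by positivity)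
    (by positivity) hCu hCk hP0 hBc (by
      refine le_trans (le_of_eq ?_) u1
      ring) (by
      refine u2.trans (le_of_eq ?_)
      ring) (by
      intro h hh
      refine le_trans (le_of_eq ?_) (hl1 ⟨a + h, hmemB h hh⟩)
      ring) (by
      intro h hh
      refine le_trans ?_ ((u3 ⟨a + h, hmemB h hh⟩).trans (le_of_eq ?_))
      · exact Finset.sum_le_sum_of_subset_of_nonneg (hsubset h hh) fun t _ _ => hg0 t
      · ring) (by
      intro h hh h' hh' hne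
      refine le_trans ?_ ((u4 ⟨a + h, hmemB h hh⟩ ⟨a + h', hmemB h' hh'⟩ (by
        intro heq
        have := congrArg Subtype.val heq
        simp only at this
        omega)).trans (le_of_eq ?_))
      · refine Finset.sum_le_sum_of_subset_of_nonneg ?_ fun t _ _ => hg0 t
        intro t ht
        rw [Finset.mem_filter] at ht ⊢
        exact ⟨ht.1, hnd h hh t ht.2.1, hnd h' hh' t ht.2.2⟩
      · ring) hKK r1 r2 hBP hC40 r3 hgE
  -- conclusion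
  refine ⟨S, hS1, hS2, fun h hh => ?_⟩
  have h1 := hS3 h hh
  set A : ℝ := (((Icc 1 T).filter (fun t => GK R a M h t)).card : ℝ) with hA
  have hA0 : 0 ≤ A := Nat.cast_nonneg _
  have hT0 : (0 : ℝ) ≤ T := Nat.cast_nonneg T
  have hHN : (H : ℝ) ≤ NX δ X := by
    have : H ≤ NX δ X := hEW.trans w3
    exact_mod_cast this
  have hTA : (T : ℝ) ≤ 144 * Bc * (NX δ X : ℝ) ^ (6 + k) * A := by
    refine (le_mul_of_one_le_right hT0 hZ1).trans (h1.trans ?_)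
    calc 16 * Bc * (H : ℝ) ^ k * (9 * (NX δ X : ℝ) ^ 6 * A)
        ≤ 16 * Bc * (NX δ X : ℝ) ^ k * (9 * (NX δ X : ℝ) ^ 6 * A) := by gcongr
      _ = _ := by ring
  have hMT : (60 : ℝ) * X ≤ M * T := by exact_mod_cast hT1
  have h60 : 144 * Bc * (NX δ X : ℝ) ^ (6 + k) * (4 : ℝ) ^ ⌊δ * log X⌋₊ * (X : ℝ) ^ (1 - ε) ≤
      144 * Bc * (NX δ X : ℝ) ^ (6 + k) * (4 : ℝ) ^ ⌊δ * log X⌋₊ * A := by
    calc 144 * Bc * (NX δ X : ℝ) ^ (6 + k) * (4 : ℝ) ^ ⌊δ * log X⌋₊ * (X : ℝ) ^ (1 - ε)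
        ≤ 60 * X := hfinX
      _ ≤ M * T := hMT
      _ ≤ (4 : ℝ) ^ ⌊δ * log X⌋₊ * (144 * Bc * (NX δ X : ℝ) ^ (6 + k) * A) :=
          mul_le_mul (hM4.trans h4Y) hTA hT0 (by positivity)
      _ = _ := by ring
  exact le_of_mul_le_mul_left h60 (by positivity)

end Pool.Agent.Lib.H77W
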